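import Pool.Agent.Helper702.DPRM

/-!
# Rational-valued functions of natural numbers
-/

set_option autoImplicit false

namespace Pool.Agent.TH729.MI

open Dioph Pool.Agent.Helper702 MvPolynomial

/-- the rational number with a given code -/
def rho (c : ℕ) : ℚ :=
  ((c.unpair.1.unpair.1 : ℚ) - (c.unpair.1.unpair.2 : ℚ)) / ((c.unpair.2 : ℚ) + 1)

lemma rho_surj (q : ℚ) : ∃ c, rho c = q := by
  refine ⟨Nat.pair (Nat.pair q.num.toNat (-q.num).toNat) (q.den - 1), ?_⟩
  simp only [rho, Nat.unpair_pair]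
  have h1 : ((q.num.toNat : ℚ) - ((-q.num).toNat : ℚ)) = q.num := by
    have : ((q.num.toNat : ℤ) - ((-q.num).toNat : ℤ)) = q.num := by omega
    exact_mod_cast this
  have h2 : (((q.den - 1 : ℕ) : ℚ) + 1) = q.den := by
    have := q.pos
    have h3 : q.den - 1 + 1 = q.den := by omega
    exact_mod_cast h3
  rw [h1, h2]
  exact Rat.num_div_den q

/-- rational-valued functions with Diophantine numerator and denominator -/
def RF {α : Type} (r : (α → ℕ) → ℚ) : Prop :=
  ∃ a b d : (α → ℕ) → ℕ, DiophFn a ∧ DiophFn b ∧ DiophFn d ∧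
    ∀ v, r v = ((a v : ℚ) - (b v : ℚ)) / ((d v : ℚ) + 1)

variable {α : Type}

lemma RF.rho {f : (α → ℕ) → ℕ} (hf : DiophFn f) : RF fun v => rho (f v) :=
  ⟨_, _, _, unpair1_dioph (unpair1_dioph hf), unpair2_dioph (unpair1_dioph hf),
    unpair2_dioph hf, fun _ => rfl⟩

lemma RF.const (q : ℚ) : RF fun _ : α → ℕ => q := by
  obtain ⟨c, hc⟩ := rho_surj q
  have := RF.rho (α := α) (const' c)
  simpa only [hc] using this

lemma RF.add {r s : (α → ℕ) → ℚ} (hr : RF r) (hs : RF s) : RF fun v => r v + s v := by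
  obtain ⟨a, b, d, ha, hb, hd, h⟩ := hr
  obtain ⟨a', b', d', ha', hb', hd', h'⟩ := hs
  refine ⟨fun v => a v * (d' v + 1) + a' v * (d v + 1),
    fun v => b v * (d' v + 1) + b' v * (d v + 1), fun v => d v * d' v + (d v + d' v),
    add_dioph (mul_dioph ha (add_dioph hd' (const' 1))) (mul_dioph ha' (add_dioph hd (const' 1))),
    add_dioph (mul_dioph hb (add_dioph hd' (const' 1))) (mul_dioph hb' (add_dioph hd (const' 1))),
    add_dioph (mul_dioph hd hd') (add_dioph hd hd'), fun v => ?_⟩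
  beta_reduce
  rw [h, h']
  push_cast
  have h1 : (d v : ℚ) + 1 ≠ 0 := by positivity
  have h2 : (d' v : ℚ) + 1 ≠ 0 := by positivity
  have h3 : (d v : ℚ) * d' v + (d v + d' v) + 1 = (d v + 1) * (d' v + 1) := by ring
  rw [h3]
  field_simp
  ring

lemma RF.mul {r s : (α → ℕ) → ℚ} (hr : RF r) (hs : RF s) : RF fun v => r v * s v := by
  obtain ⟨a, b, d, ha, hb, hd, h⟩ := hr
  obtain ⟨a', b', d', ha', hb', hd', h'⟩ := hs
  refine ⟨fun v => a v * a' v + b v * b' v, fun v => a v * b' v + b v * a' v,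
    fun v => d v * d' v + (d v + d' v),
    add_dioph (mul_dioph ha ha') (mul_dioph hb hb'),
    add_dioph (mul_dioph ha hb') (mul_dioph hb ha'),
    add_dioph (mul_dioph hd hd') (add_dioph hd hd'), fun v => ?_⟩
  beta_reduce
  rw [h, h']
  push_cast
  have h1 : (d v : ℚ) + 1 ≠ 0 := by positivity
  have h2 : (d' v : ℚ) + 1 ≠ 0 := by positivity
  have h3 : (d v : ℚ) * d' v + (d v + d' v) + 1 = (d v + 1) * (d' v + 1) := by ring
  rw [h3]
  field_simp
  ring

lemma RF.poly {ι : Type} {f : ι → (α → ℕ) → ℚ} (hf : ∀ i, RF (f i)) (P : MvPolynomial ι ℚ) :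
    RF fun v => eval (fun i => f i v) P := by
  induction P using MvPolynomial.induction_on with
  | C a =>
    simp only [eval_C]
    exact RF.const a
  | add p q hp hq =>
    simp only [eval_add]
    exact hp.add hq
  | mul_X p i hp =>
    simp only [eval_mul, eval_X]
    exact hp.mul (hf i)

lemma RF.lt {r s : (α → ℕ) → ℚ} (hr : RF r) (hs : RF s) : Dioph {v | r v < s v} := by
  obtain ⟨a, b, d, ha, hb, hd, h⟩ := hr
  obtain ⟨a', b', d', ha', hb', hd', h'⟩ := hs
  have h1 : Dioph {v | a v * (d' v + 1) + b' v * (d v + 1) <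
      a' v * (d v + 1) + b v * (d' v + 1)} :=
    lt_dioph
      (add_dioph (mul_dioph ha (add_dioph hd' (const' 1)))
        (mul_dioph hb' (add_dioph hd (const' 1))))
      (add_dioph (mul_dioph ha' (add_dioph hd (const' 1)))
        (mul_dioph hb (add_dioph hd' (const' 1))))
  refine Dioph.ext h1 fun v => ?_
  simp only [Set.mem_ofPred_eq]
  rw [h, h', div_lt_div_iff₀ (by positivity) (by positivity)]
  constructor
  · intro h2
    have h3 : ((a v * (d' v + 1) + b' v * (d v + 1) : ℕ) : ℚ) <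
      ((a' v * (d v + 1) + b v * (d' v + 1) : ℕ) : ℚ) := by exact_mod_cast h2
    push_cast at h3
    linarith
  · intro h2
    have h3 : ((a v * (d' v + 1) + b' v * (d v + 1) : ℕ) : ℚ) <
      ((a' v * (d v + 1) + b v * (d' v + 1) : ℕ) : ℚ) := by
      push_cast
      linarith
    exact_mod_cast h3

lemma RF.ne {r s : (α → ℕ) → ℚ} (hr : RF r) (hs : RF s) : Dioph {v | r v ≠ s v} :=
  Dioph.ext (or_dioph (hr.lt hs) (hs.lt hr)) fun _ => (lt_or_lt_iff_ne (α := ℚ))

lemma RF.eq {r s : (α → ℕ) → ℚ} (hr : RF r) (hs : RF s) : Dioph {v | r v = s v} := by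
  obtain ⟨a, b, d, ha, hb, hd, h⟩ := hr
  obtain ⟨a', b', d', ha', hb', hd', h'⟩ := hs
  have h1 : Dioph {v | a v * (d' v + 1) + b' v * (d v + 1) =
      a' v * (d v + 1) + b v * (d' v + 1)} :=
    eq_dioph
      (add_dioph (mul_dioph ha (add_dioph hd' (const' 1)))
        (mul_dioph hb' (add_dioph hd (const' 1))))
      (add_dioph (mul_dioph ha' (add_dioph hd (const' 1)))
        (mul_dioph hb (add_dioph hd' (const' 1))))
  refine Dioph.ext h1 fun v => ?_
  simp only [Set.mem_ofPred_eq]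
  rw [h, h', div_eq_div_iff (by positivity) (by positivity)]
  constructor
  · intro h2
    have h3 : ((a v * (d' v + 1) + b' v * (d v + 1) : ℕ) : ℚ) =
      ((a' v * (d v + 1) + b v * (d' v + 1) : ℕ) : ℚ) := by exact_mod_cast h2
    push_cast at h3
    linarith
  · intro h2
    have h3 : ((a v * (d' v + 1) + b' v * (d v + 1) : ℕ) : ℚ) =
      ((a' v * (d v + 1) + b v * (d' v + 1) : ℕ) : ℚ) := by
      push_cast
      linarith
    exact_mod_cast h3

/-- the vector with a given code -/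
def vec (c i : ℕ) : ℚ := rho (Nat.beta c i)

lemma vec_surj {L : ℕ} (x : Fin L → ℚ) : ∃ c, ∀ i : Fin L, vec c i = x i := by
  choose g hg using rho_surj
  obtain ⟨c, hc⟩ := exists_beta L fun i => if h : i < L then g (x ⟨i, h⟩) else 0
  refine ⟨c, fun i => ?_⟩
  rw [vec, hc i i.2.le, dif_pos i.2, hg]

lemma RF.vec {f : (α → ℕ) → ℕ} (hf : DiophFn f) (i : ℕ) : RF fun v => vec (f v) i :=
  RF.rho (beta_dioph hf (const' i))

end Pool.Agent.TH729.MI
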