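import Mathlib

/-!
# Diophantine sets over the rational numbers
-/

set_option autoImplicit false
set_option linter.unusedSectionVars false

namespace Pool.Agent.TH729.MI

open MvPolynomial

/-- Diophantine sets over `ℚ` -/
def DQ {τ : Type} (S : Set (τ → ℚ)) : Prop :=
  ∃ (κ : Type) (_ : Finite κ) (P : MvPolynomial (τ ⊕ κ) ℚ),
    ∀ x, x ∈ S ↔ ∃ w : κ → ℚ, eval (Sum.elim x w) P = 0

variable {τ τ' ι : Type}

lemma DQ.congr {S T : Set (τ → ℚ)} (h : DQ S) (hST : ∀ x, x ∈ T ↔ x ∈ S) : DQ T := by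
  obtain ⟨κ, h1, P, hP⟩ := h
  exact ⟨κ, h1, P, fun x => (hST x).trans (hP x)⟩

lemma DQ.zero (p : MvPolynomial τ ℚ) : DQ {x : τ → ℚ | eval x p = 0} := by
  refine ⟨Empty, inferInstance, rename Sum.inl p, fun x => ?_⟩
  have h1 : ∀ w : Empty → ℚ, eval (Sum.elim x w) (rename Sum.inl p) = eval x p := by
    intro w
    rw [eval_rename]
    rfl
  constructor
  · intro h
    exact ⟨fun e => e.elim, by rw [h1]; exact h⟩
  · rintro ⟨w, hw⟩
    rw [h1] at hw
    exact hw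

lemma DQ.and {S T : Set (τ → ℚ)} (hS : DQ S) (hT : DQ T) : DQ {x | x ∈ S ∧ x ∈ T} := by
  obtain ⟨κ, h1, P, hP⟩ := hS
  obtain ⟨κ', h1', P', hP'⟩ := hT
  refine ⟨κ ⊕ κ', inferInstance, rename (Sum.map id Sum.inl) P ^ 2 +
    rename (Sum.map id Sum.inr) P' ^ 2, fun x => ?_⟩
  have e1 : ∀ w : κ ⊕ κ' → ℚ, eval (Sum.elim x w) (rename (Sum.map id Sum.inl) P) =
      eval (Sum.elim x (w ∘ Sum.inl)) P := by
    intro w
    rw [eval_rename]
    congr 1
    congr 1
    funext s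
    rcases s with s | s <;> rfl
  have e2 : ∀ w : κ ⊕ κ' → ℚ, eval (Sum.elim x w) (rename (Sum.map id Sum.inr) P') =
      eval (Sum.elim x (w ∘ Sum.inr)) P' := by
    intro w
    rw [eval_rename]
    congr 1
    congr 1
    funext s
    rcases s with s | s <;> rfl
  simp only [map_add, map_pow, e1, e2]
  constructor
  · rintro ⟨h2, h3⟩
    obtain ⟨w, hw⟩ := (hP x).1 h2
    obtain ⟨w', hw'⟩ := (hP' x).1 h3
    refine ⟨Sum.elim w w', ?_⟩
    have e3 : (Sum.elim w w') ∘ Sum.inl = w := by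
      funext s
      rfl
    have e4 : (Sum.elim w w') ∘ Sum.inr = w' := by
      funext s
      rfl
    rw [e3, e4, hw, hw']
    norm_num
  · rintro ⟨w, hw⟩
    have h4 : eval (Sum.elim x (w ∘ Sum.inl)) P = 0 := by nlinarith
    have h5 : eval (Sum.elim x (w ∘ Sum.inr)) P' = 0 := by nlinarith
    exact ⟨(hP x).2 ⟨_, h4⟩, (hP' x).2 ⟨_, h5⟩⟩

lemma eval_aeval {σ : Type} (z : τ → ℚ) (G : σ → MvPolynomial τ ℚ) (P : MvPolynomial σ ℚ) :
    eval z (aeval G P) = eval (fun i => eval z (G i)) P := by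
  induction P using MvPolynomial.induction_on with
  | C a => simp
  | add p q hp hq => rw [map_add, map_add, map_add, hp, hq]
  | mul_X p i hp => rw [map_mul, map_mul, map_mul, hp, aeval_X, eval_X]

/-- preimages under polynomial maps -/
lemma DQ.pre {S : Set (τ → ℚ)} (hS : DQ S) (F : τ → MvPolynomial τ' ℚ) :
    DQ {x : τ' → ℚ | (fun i => eval x (F i)) ∈ S} := by
  obtain ⟨κ, h1, P, hP⟩ := hS
  refine ⟨κ, h1, aeval (Sum.elim (fun i => rename Sum.inl (F i)) (fun j => X (Sum.inr j))) P,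
    fun x => ?_⟩
  have e1 : ∀ w : κ → ℚ, eval (Sum.elim x w)
      (aeval (Sum.elim (fun i => rename Sum.inl (F i)) (fun j => X (Sum.inr j))) P :
        MvPolynomial (τ' ⊕ κ) ℚ) = eval (Sum.elim (fun i => eval x (F i)) w) P := by
    intro w
    rw [eval_aeval]
    congr 1
    congr 1
    funext s
    rcases s with s | s
    · rw [Sum.elim_inl, Sum.elim_inl, eval_rename]
      rfl
    · rw [Sum.elim_inr, Sum.elim_inr, eval_X]
      rfl
  rw [Set.mem_ofPred_eq, hP]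
  simp only [e1]

/-- reindexing -/
lemma DQ.re {S : Set (τ → ℚ)} (hS : DQ S) (e : τ → τ') :
    DQ {x : τ' → ℚ | (fun i => x (e i)) ∈ S} := by
  refine (hS.pre fun i => X (e i)).congr fun x => ?_
  simp only [Set.mem_ofPred_eq, eval_X]

lemma DQ.ex [Finite ι] {S : Set (τ ⊕ ι → ℚ)} (hS : DQ S) :
    DQ {x : τ → ℚ | ∃ y : ι → ℚ, Sum.elim x y ∈ S} := by
  obtain ⟨κ, h1, P, hP⟩ := hS
  refine ⟨ι ⊕ κ, inferInstance, rename (Equiv.sumAssoc τ ι κ) P, fun x => ?_⟩
  have e1 : ∀ (y : ι → ℚ) (w : κ → ℚ), eval (Sum.elim x (Sum.elim y w))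
      (rename (Equiv.sumAssoc τ ι κ) P) = eval (Sum.elim (Sum.elim x y) w) P := by
    intro y w
    rw [eval_rename]
    congr 1
    congr 1
    funext s
    rcases s with (s | s) | s <;> rfl
  constructor
  · rintro ⟨y, hy⟩
    obtain ⟨w, hw⟩ := (hP _).1 hy
    exact ⟨Sum.elim y w, by rw [e1, hw]⟩
  · rintro ⟨w, hw⟩
    refine ⟨w ∘ Sum.inl, (hP _).2 ⟨w ∘ Sum.inr, ?_⟩⟩
    rw [← e1]
    have : Sum.elim (w ∘ Sum.inl) (w ∘ Sum.inr) = w := by
      funext s
      rcases s with s | s <;> rfl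
    rw [this]
    exact hw

/-- existential quantification with a semantic description -/
lemma DQ.ex' [Finite ι] {R : (τ → ℚ) → (ι → ℚ) → Prop}
    (hS : DQ {z : τ ⊕ ι → ℚ | R (fun i => z (Sum.inl i)) (fun j => z (Sum.inr j))}) :
    DQ {x : τ → ℚ | ∃ y : ι → ℚ, R x y} :=
  hS.ex.congr fun _ => Iff.rfl

lemma DQ.eq (p q : MvPolynomial τ ℚ) : DQ {x : τ → ℚ | eval x p = eval x q} := by
  refine (DQ.zero (p - q)).congr fun x => ?_
  simp only [Set.mem_ofPred_eq, map_sub, sub_eq_zero]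

lemma DQ.univ : DQ (Set.univ : Set (τ → ℚ)) :=
  (DQ.zero 0).congr fun x => by simp

lemma DQ.forall_fin {n : ℕ} {S : Fin n → Set (τ → ℚ)} (h : ∀ i, DQ (S i)) :
    DQ {x : τ → ℚ | ∀ i, x ∈ S i} := by
  induction n with
  | zero => exact DQ.univ.congr fun x => by simp
  | succ n ih =>
    refine ((h 0).and (ih fun i => h i.succ)).congr fun x => ?_
    simp only [Set.mem_ofPred_eq]
    exact Fin.forall_fin_succ

lemma DQ.forall' [Finite ι] {S : ι → Set (τ → ℚ)} (h : ∀ i, DQ (S i)) :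
    DQ {x : τ → ℚ | ∀ i, x ∈ S i} := by
  obtain ⟨n, ⟨e⟩⟩ := Finite.exists_equiv_fin ι
  refine (DQ.forall_fin (S := fun i => S (e.symm i)) fun i => h _).congr fun x => ?_
  simp only [Set.mem_ofPred_eq]
  constructor
  · intro h i
    exact h _
  · intro h i
    have := h (e i)
    rwa [e.symm_apply_apply] at this

/-- nonnegative rational numbers -/
lemma four (r : ℚ) : 0 ≤ r ↔ ∃ y : Fin 4 → ℚ, r = y 0 ^ 2 + y 1 ^ 2 + y 2 ^ 2 + y 3 ^ 2 := by
  constructor
  · intro h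
    obtain ⟨a, b, c, d, h1⟩ := Nat.sum_four_squares (r.num.toNat * r.den)
    have hd : (r.den : ℚ) ≠ 0 := by
      have := r.pos
      positivity
    refine ⟨![a / r.den, b / r.den, c / r.den, d / r.den], ?_⟩
    simp only [Matrix.cons_val_zero, Matrix.cons_val_one, Matrix.cons_val]
    have h2 : ((r.num.toNat : ℕ) : ℚ) = r.num := by
      have : ((r.num.toNat : ℕ) : ℤ) = r.num := Int.toNat_of_nonneg (Rat.num_nonneg.2 h)
      exact_mod_cast this
    have h3 : (a : ℚ) ^ 2 + b ^ 2 + c ^ 2 + d ^ 2 = r.num * r.den := by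
      rw [← h2]
      exact_mod_cast h1
    have h4 : r = r.num / r.den := (Rat.num_div_den r).symm
    field_simp
    rw [h3]
    nth_rw 1 [h4]
    field_simp
  · rintro ⟨y, rfl⟩
    positivity

lemma DQ.le (p q : MvPolynomial τ ℚ) : DQ {x : τ → ℚ | eval x p ≤ eval x q} := by
  refine DQ.congr (DQ.ex' (ι := Fin 4) (R := fun x y => eval x q - eval x p =
    y 0 ^ 2 + y 1 ^ 2 + y 2 ^ 2 + y 3 ^ 2) ?_) fun x => ?_
  · refine (DQ.eq (rename Sum.inl q - rename Sum.inl p) (X (Sum.inr 0) ^ 2 + X (Sum.inr 1) ^ 2 +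
      X (Sum.inr 2) ^ 2 + X (Sum.inr 3) ^ 2)).congr fun z => ?_
    simp only [Set.mem_ofPred_eq, map_sub, map_add, map_pow, eval_X, eval_rename]
    rfl
  · simp only [Set.mem_ofPred_eq]
    rw [← sub_nonneg, four]

lemma DQ.ne (p q : MvPolynomial τ ℚ) : DQ {x : τ → ℚ | eval x p ≠ eval x q} := by
  refine DQ.congr (DQ.ex' (ι := Unit) (R := fun x y => (eval x q - eval x p) * y () = 1) ?_)
    fun x => ?_
  · refine (DQ.eq ((rename Sum.inl q - rename Sum.inl p) * X (Sum.inr ())) 1).congr fun z => ?_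
    simp only [Set.mem_ofPred_eq, map_sub, map_mul, map_one, eval_X, eval_rename]
    rfl
  · simp only [Set.mem_ofPred_eq]
    constructor
    · intro h
      exact ⟨fun _ => (eval x q - eval x p)⁻¹, mul_inv_cancel₀ (sub_ne_zero.2 (Ne.symm h))⟩
    · rintro ⟨y, hy⟩ h
      rw [h, sub_self, zero_mul] at hy
      exact zero_ne_one hy

lemma DQ.lt (p q : MvPolynomial τ ℚ) : DQ {x : τ → ℚ | eval x p < eval x q} :=
  ((DQ.le p q).and (DQ.ne p q)).congr fun x => by
    show eval x p < eval x q ↔ eval x p ≤ eval x q ∧ eval x p ≠ eval x q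
    exact lt_iff_le_and_ne

end Pool.Agent.TH729.MI
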