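import Pool.Agent.TH729.MI.A
import Pool.Agent.TH729.MI.B

/-!
# Diophantine interpretations of the integers
-/

set_option autoImplicit false
set_option linter.unusedSectionVars false

namespace Pool.Agent.TH729.MI

open MvPolynomial Pool.Agent.Helper702

/-- value of a vector of polynomials -/
noncomputable def vv {τ : Type} {n : ℕ} (V : Fin n → MvPolynomial τ ℚ) (x : τ → ℚ) : Fin n → ℚ :=
  fun j => eval x (V j)

/-- interpretations of the integers -/
structure Interp (n : ℕ) (D : Set (Fin n → ℚ)) (φ : (Fin n → ℚ) → ℤ) : Prop where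
  surj : Set.SurjOn φ D Set.univ
  dD : DQ D
  dE : DQ {x : Fin 2 × Fin n → ℚ | (fun j => x (0, j)) ∈ D ∧ (fun j => x (1, j)) ∈ D ∧
    φ (fun j => x (0, j)) = φ (fun j => x (1, j))}
  dA : DQ {x : Fin 3 × Fin n → ℚ | (fun j => x (0, j)) ∈ D ∧ (fun j => x (1, j)) ∈ D ∧
    (fun j => x (2, j)) ∈ D ∧ φ (fun j => x (0, j)) + φ (fun j => x (1, j)) =
      φ (fun j => x (2, j))}
  dM : DQ {x : Fin 3 × Fin n → ℚ | (fun j => x (0, j)) ∈ D ∧ (fun j => x (1, j)) ∈ D ∧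
    (fun j => x (2, j)) ∈ D ∧ φ (fun j => x (0, j)) * φ (fun j => x (1, j)) =
      φ (fun j => x (2, j))}

variable {n : ℕ} {D : Set (Fin n → ℚ)} {φ : (Fin n → ℚ) → ℤ}

lemma Interp.inD (I : Interp n D φ) {τ : Type} (V : Fin n → MvPolynomial τ ℚ) :
    DQ {x : τ → ℚ | vv V x ∈ D} := I.dD.pre V

lemma Interp.eqq (I : Interp n D φ) {τ : Type} (V W : Fin n → MvPolynomial τ ℚ) :
    DQ {x : τ → ℚ | vv V x ∈ D ∧ vv W x ∈ D ∧ φ (vv V x) = φ (vv W x)} :=
  (I.dE.pre fun s => ![V, W] s.1 s.2).congr fun _ => Iff.rfl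

lemma Interp.add (I : Interp n D φ) {τ : Type} (V W U : Fin n → MvPolynomial τ ℚ) :
    DQ {x : τ → ℚ | vv V x ∈ D ∧ vv W x ∈ D ∧ vv U x ∈ D ∧
      φ (vv V x) + φ (vv W x) = φ (vv U x)} :=
  (I.dA.pre fun s => ![V, W, U] s.1 s.2).congr fun _ => Iff.rfl

lemma Interp.mul (I : Interp n D φ) {τ : Type} (V W U : Fin n → MvPolynomial τ ℚ) :
    DQ {x : τ → ℚ | vv V x ∈ D ∧ vv W x ∈ D ∧ vv U x ∈ D ∧
      φ (vv V x) * φ (vv W x) = φ (vv U x)} :=
  (I.dM.pre fun s => ![V, W, U] s.1 s.2).congr fun _ => Iff.rfl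

/-- lifting to more variables -/
noncomputable def up {τ ι : Type} (V : Fin n → MvPolynomial τ ℚ) : Fin n → MvPolynomial (τ ⊕ ι) ℚ :=
  fun j => rename Sum.inl (V j)

lemma vv_up {τ ι : Type} (V : Fin n → MvPolynomial τ ℚ) (z : τ ⊕ ι → ℚ) :
    vv (up V) z = vv V fun i => z (Sum.inl i) := by
  funext j
  simp only [vv, up, eval_rename]
  rfl

/-- new variables -/
noncomputable def nw {τ ι : Type} (i : ι) : Fin n → MvPolynomial (τ ⊕ (ι × Fin n)) ℚ :=
  fun j => X (Sum.inr (i, j))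

lemma vv_nw {τ ι : Type} (i : ι) (z : τ ⊕ (ι × Fin n) → ℚ) :
    vv (nw (n := n) i) z = fun j => z (Sum.inr (i, j)) := by
  funext j
  simp only [vv, nw, eval_X]

/-- quantification over new vectors -/
lemma DQ.exv {τ ι : Type} [Finite ι] {R : (τ → ℚ) → (ι → Fin n → ℚ) → Prop}
    (h : DQ {z : τ ⊕ (ι × Fin n) → ℚ | R (fun i => z (Sum.inl i))
      (fun i j => z (Sum.inr (i, j)))}) :
    DQ {x : τ → ℚ | ∃ y : ι → Fin n → ℚ, R x y} := by
  refine (DQ.ex' (ι := ι × Fin n) (R := fun x y => R x fun i j => y (i, j)) h).congr fun x => ?_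
  constructor
  · rintro ⟨y, hy⟩
    exact ⟨fun s => y s.1 s.2, hy⟩
  · rintro ⟨y, hy⟩
    exact ⟨fun i j => y (i, j), hy⟩

/-- integer polynomials -/
theorem Interp.poly (I : Interp n D φ) {ι : Type} [Finite ι] (Q : MvPolynomial ι ℤ) :
    ∀ {τ : Type} (V : ι → Fin n → MvPolynomial τ ℚ) (W : Fin n → MvPolynomial τ ℚ),
    DQ {x : τ → ℚ | (∀ i, vv (V i) x ∈ D) ∧ vv W x ∈ D ∧
      φ (vv W x) = eval (fun i => φ (vv (V i) x)) Q} := by
  induction Q using MvPolynomial.induction_on with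
  | C a =>
    intro τ V W
    obtain ⟨r, hr, hra⟩ := I.surj (Set.mem_univ a)
    have h1 := I.eqq W (fun j => (C (r j) : MvPolynomial τ ℚ))
    have h2 : ∀ x : τ → ℚ, vv (fun j => (C (r j) : MvPolynomial τ ℚ)) x = r := by
      intro x
      funext j
      simp [vv]
    refine ((DQ.forall' fun i => I.inD (V i)).and h1).congr fun x => ?_
    simp only [Set.mem_ofPred_eq, h2, hra, eval_C]
    tauto
  | add p q hp hq =>
    intro τ V W
    refine DQ.congr (DQ.exv (ι := Fin 2) (R := fun x y =>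
      ((∀ i, vv (V i) x ∈ D) ∧ y 0 ∈ D ∧ φ (y 0) = eval (fun i => φ (vv (V i) x)) p) ∧
      ((∀ i, vv (V i) x ∈ D) ∧ y 1 ∈ D ∧ φ (y 1) = eval (fun i => φ (vv (V i) x)) q) ∧
      (y 0 ∈ D ∧ y 1 ∈ D ∧ vv W x ∈ D ∧ φ (y 0) + φ (y 1) = φ (vv W x))) ?_) fun x => ?_
    · refine (((hp (fun i => up (V i)) (nw 0)).and ((hq (fun i => up (V i)) (nw 1)).and
        (I.add (nw 0) (nw 1) (up W))))).congr fun z => ?_
      simp only [Set.mem_ofPred_eq, vv_up, vv_nw]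
    · simp only [Set.mem_ofPred_eq, map_add]
      constructor
      · rintro ⟨h1, h2, h3⟩
        obtain ⟨a, ha, ha'⟩ := I.surj (Set.mem_univ (eval (fun i => φ (vv (V i) x)) p))
        obtain ⟨b, hb, hb'⟩ := I.surj (Set.mem_univ (eval (fun i => φ (vv (V i) x)) q))
        refine ⟨![a, b], ⟨h1, ha, ha'⟩, ⟨h1, hb, hb'⟩, ha, hb, h2, ?_⟩
        show φ a + φ b = _
        rw [ha', hb', h3]
      · rintro ⟨y, ⟨h1, -, h3⟩, ⟨-, -, h4⟩, -, -, h5, h6⟩
        exact ⟨h1, h5, by rw [← h6, h3, h4]⟩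
  | mul_X p i hp =>
    intro τ V W
    refine DQ.congr (DQ.exv (ι := Fin 1) (R := fun x y =>
      ((∀ i, vv (V i) x ∈ D) ∧ y 0 ∈ D ∧ φ (y 0) = eval (fun i => φ (vv (V i) x)) p) ∧
      (y 0 ∈ D ∧ vv (V i) x ∈ D ∧ vv W x ∈ D ∧ φ (y 0) * φ (vv (V i) x) = φ (vv W x))) ?_)
      fun x => ?_
    · refine ((hp (fun i => up (V i)) (nw 0)).and
        (I.mul (nw 0) (up (V i)) (up W))).congr fun z => ?_
      simp only [Set.mem_ofPred_eq, vv_up, vv_nw]
    · simp only [Set.mem_ofPred_eq, map_mul, eval_X]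
      constructor
      · rintro ⟨h1, h2, h3⟩
        obtain ⟨a, ha, ha'⟩ := I.surj (Set.mem_univ (eval (fun i => φ (vv (V i) x)) p))
        refine ⟨![a], ⟨h1, ha, ha'⟩, ha, h1 i, h2, ?_⟩
        show φ a * _ = _
        rw [ha', h3]
      · rintro ⟨y, ⟨h1, -, h3⟩, -, -, h5, h6⟩
        exact ⟨h1, h5, by rw [← h6, h3]⟩

/-- zeros of integer polynomials -/
theorem Interp.zeros (I : Interp n D φ) {ι : Type} [Finite ι] (Q : MvPolynomial ι ℤ) {τ : Type}
    (V : ι → Fin n → MvPolynomial τ ℚ) :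
    DQ {x : τ → ℚ | (∀ i, vv (V i) x ∈ D) ∧ eval (fun i => φ (vv (V i) x)) Q = 0} := by
  obtain ⟨r, hr, hr0⟩ := I.surj (Set.mem_univ 0)
  have h2 : ∀ x : τ → ℚ, vv (fun j => (C (r j) : MvPolynomial τ ℚ)) x = r := by
    intro x
    funext j
    simp [vv]
  refine (I.poly Q V fun j => C (r j)).congr fun x => ?_
  simp only [Set.mem_ofPred_eq, h2, hr0]
  constructor
  · rintro ⟨h3, h4⟩
    exact ⟨h3, hr, h4.symm⟩
  · rintro ⟨h3, -, h4⟩
    exact ⟨h3, h4.symm⟩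

/-- nonnegative elements -/
theorem Interp.nonneg (I : Interp n D φ) {τ : Type} (V : Fin n → MvPolynomial τ ℚ) :
    DQ {x : τ → ℚ | vv V x ∈ D ∧ 0 ≤ φ (vv V x)} := by
  refine DQ.congr (DQ.exv (ι := Fin 4) (R := fun x y => (∀ i, y i ∈ D) ∧ vv V x ∈ D ∧
    φ (vv V x) = eval (fun i => φ (y i)) (∑ i : Fin 4, (X i : MvPolynomial (Fin 4) ℤ) ^ 2)) ?_)
    fun x => ?_
  · refine (I.poly (∑ i : Fin 4, (X i : MvPolynomial (Fin 4) ℤ) ^ 2) (fun i => nw i)
      (up V)).congr fun z => ?_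
    simp only [Set.mem_ofPred_eq, vv_up, vv_nw]
  · simp only [Set.mem_ofPred_eq, map_sum, map_pow, eval_X]
    constructor
    · rintro ⟨h1, h2⟩
      obtain ⟨a, b, c, d, h3⟩ := Nat.sum_four_squares (φ (vv V x)).toNat
      have hs : ∀ t : ℤ, ∃ y ∈ D, φ y = t := fun t => I.surj (Set.mem_univ t)
      choose g hg hg' using hs
      refine ⟨fun i => g (![(a : ℤ), b, c, d] i), fun i => hg _, h1, ?_⟩
      simp only [hg', Fin.sum_univ_four, Matrix.cons_val_zero, Matrix.cons_val_one,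
        Matrix.cons_val]
      have h4 : ((φ (vv V x)).toNat : ℤ) = φ (vv V x) := Int.toNat_of_nonneg h2
      rw [← h4, ← h3]
      push_cast
      ring
    · rintro ⟨y, -, h1, h2⟩
      exact ⟨h1, by rw [h2]; exact Finset.sum_nonneg fun i _ => sq_nonneg _⟩

lemma poly_mv {ι : Type} (p : Poly ι) : ∃ Q : MvPolynomial ι ℤ, ∀ v : ι → ℕ,
    p v = eval (fun i => (v i : ℤ)) Q := by
  refine Poly.induction (C := fun p => ∃ Q : MvPolynomial ι ℤ, ∀ v : ι → ℕ,
    p v = eval (fun i => (v i : ℤ)) Q) ?_ ?_ ?_ ?_ p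
  · intro i
    exact ⟨X i, fun v => by simp⟩
  · intro c
    exact ⟨C c, fun v => by simp⟩
  · rintro f g ⟨Q, hQ⟩ ⟨Q', hQ'⟩
    exact ⟨Q - Q', fun v => by simp [hQ, hQ']⟩
  · rintro f g ⟨Q, hQ⟩ ⟨Q', hQ'⟩
    exact ⟨Q * Q', fun v => by simp [hQ, hQ']⟩

/-- transfer of Diophantine sets of natural numbers -/
theorem Interp.dioph (I : Interp n D φ) {ι : Type} [Finite ι] {S : Set (ι → ℕ)} (hS : Dioph S)
    {τ : Type} (V : ι → Fin n → MvPolynomial τ ℚ) :
    DQ {x : τ → ℚ | (∀ i, vv (V i) x ∈ D ∧ 0 ≤ φ (vv (V i) x)) ∧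
      (fun i => (φ (vv (V i) x)).toNat) ∈ S} := by
  obtain ⟨δ, hδ, p, hp⟩ := finite_dummies hS
  obtain ⟨Q, hQ⟩ := poly_mv p
  refine DQ.congr (DQ.exv (ι := δ) (R := fun x y =>
    (∀ s, Sum.elim (fun i => vv (V i) x) y s ∈ D ∧
      0 ≤ φ (Sum.elim (fun i => vv (V i) x) y s)) ∧
    ((∀ s, Sum.elim (fun i => vv (V i) x) y s ∈ D) ∧
      eval (fun s => φ (Sum.elim (fun i => vv (V i) x) y s)) Q = 0)) ?_) fun x => ?_
  · set V' : ι ⊕ δ → Fin n → MvPolynomial (τ ⊕ (δ × Fin n)) ℚ :=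
      Sum.elim (fun i => up (V i)) fun d => nw d with hV'
    have h1 : ∀ z : τ ⊕ (δ × Fin n) → ℚ, ∀ s, vv (V' s) z =
        Sum.elim (fun i => vv (V i) fun i => z (Sum.inl i))
          (fun i j => z (Sum.inr (i, j))) s := by
      intro z s
      rcases s with s | s
      · exact vv_up _ _
      · exact vv_nw _ _
    refine ((DQ.forall' fun s => I.nonneg (V' s)).and (I.zeros Q V')).congr fun z => ?_
    simp only [Set.mem_ofPred_eq, h1]
  · simp only [Set.mem_ofPred_eq]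
    constructor
    · rintro ⟨h1, h2⟩
      obtain ⟨t, ht⟩ := (hp _).1 h2
      have hs : ∀ t : ℤ, ∃ y ∈ D, φ y = t := fun t => I.surj (Set.mem_univ t)
      choose g hg hg' using hs
      have h3 : ∀ s, Sum.elim (fun i => vv (V i) x) (fun d => g (t d)) s ∈ D ∧
          0 ≤ φ (Sum.elim (fun i => vv (V i) x) (fun d => g (t d)) s) := by
        intro s
        rcases s with s | s
        · exact h1 s
        · refine ⟨hg _, ?_⟩
          show 0 ≤ φ (g (t s))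
          rw [hg']
          positivity
      refine ⟨fun d => g (t d), h3, fun s => (h3 s).1, ?_⟩
      rw [← ht, hQ]
      congr 1
      congr 1
      funext s
      rcases s with s | s
      · show φ (vv (V s) x) = (((φ (vv (V s) x)).toNat : ℕ) : ℤ)
        exact (Int.toNat_of_nonneg (h1 s).2).symm
      · exact hg' _
    · rintro ⟨y, h1, -, h2⟩
      refine ⟨fun i => h1 (Sum.inl i), (hp _).2 ⟨fun d => (φ (y d)).toNat, ?_⟩⟩
      rw [hQ, ← h2]
      congr 1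
      congr 1
      funext s
      rcases s with s | s
      · exact Int.toNat_of_nonneg (h1 (Sum.inl s)).2
      · exact Int.toNat_of_nonneg (h1 (Sum.inr s)).2

end Pool.Agent.TH729.MI
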