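import Pool.Agent.TH729.MI.B

/-!
# Isolated points under Mazur's conjecture
-/

set_option autoImplicit false
set_option linter.unusedSectionVars false

namespace Pool.Agent.TH729.MI

open MvPolynomial

/-- the squared distance -/
def dd {s : ℕ} (u p : Fin s → ℚ) : ℚ := ∑ i, (u i - p i) ^ 2

lemma dd_nonneg {s : ℕ} (u p : Fin s → ℚ) : 0 ≤ dd u p := Finset.sum_nonneg fun _ _ => sq_nonneg _

lemma dd_eq_zero {s : ℕ} {u p : Fin s → ℚ} : dd u p = 0 ↔ u = p := by
  constructor
  · intro h
    funext i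
    have h1 := (Finset.sum_eq_zero_iff_of_nonneg fun i _ => sq_nonneg (u i - p i)).1 h i
      (Finset.mem_univ i)
    exact sub_eq_zero.1 (pow_eq_zero_iff two_ne_zero |>.1 h1)
  · rintro rfl
    simp [dd]

lemma dd_comm {s : ℕ} (u p : Fin s → ℚ) : dd u p = dd p u :=
  Finset.sum_congr rfl fun i _ => by ring

lemma dd_tri {s : ℕ} (u v p : Fin s → ℚ) : dd u p ≤ 2 * dd v u + 2 * dd v p := by
  unfold dd
  rw [Finset.mul_sum, Finset.mul_sum, ← Finset.sum_add_distrib]
  refine Finset.sum_le_sum fun i _ => ?_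
  nlinarith [sq_nonneg (u i - v i + (p i - v i))]

/-- Mazur's conjecture -/
def Mazur : Prop := ∀ m : ℕ, ∀ q : MvPolynomial (Fin m) ℚ, ∀ S : Set (Fin m → ℝ),
  S = closure ((fun r : Fin m → ℚ => fun i => ((r i : ℚ) : ℝ)) ''
    {r : Fin m → ℚ | MvPolynomial.eval r q = 0}) →
  ((fun a => connectedComponentIn S a) '' S).Finite

/-- Diophantine sets have finitely many isolated points -/
theorem iso_finite (M : Mazur) {s : ℕ} {U : Set (Fin s → ℚ)} (hU : DQ U) :
    {p ∈ U | ∃ ε : ℚ, 0 < ε ∧ ∀ u ∈ U, u ≠ p → ε ≤ dd u p}.Finite := by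
  classical
  obtain ⟨κ, hκ, P, hP⟩ := hU
  obtain ⟨m, ⟨e⟩⟩ := Finite.exists_equiv_fin (Fin s ⊕ κ)
  set A : Set (Fin m → ℚ) := {r : Fin m → ℚ | eval r (rename e P) = 0} with hA
  have hAU : ∀ r ∈ A, (fun i => r (e (Sum.inl i))) ∈ U := by
    intro r hr
    refine (hP _).2 ⟨fun k => r (e (Sum.inr k)), ?_⟩
    have h1 : eval r (rename e P) = 0 := hr
    rw [eval_rename] at h1
    rw [← h1]
    congr 1
    congr 1
    funext t
    rcases t with t | t <;> rfl
  have hUA : ∀ p ∈ U, ∃ r ∈ A, (fun i => r (e (Sum.inl i))) = p := by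
    intro p hp
    obtain ⟨w, hw⟩ := (hP p).1 hp
    refine ⟨fun t => Sum.elim p w (e.symm t), ?_, ?_⟩
    · show eval _ (rename e P) = 0
      rw [eval_rename, ← hw]
      congr 1
      congr 1
      funext t
      simp
    · funext i
      simp
  set S : Set (Fin m → ℝ) := closure ((fun r : Fin m → ℚ => fun i => ((r i : ℚ) : ℝ)) '' A)
    with hS
  have hM := M m (rename e P) S hS
  have hch : ∀ p ∈ U, ∃ a ∈ S, ∀ i, a (e (Sum.inl i)) = (p i : ℝ) := by
    intro p hp
    obtain ⟨r, hr, hrp⟩ := hUA p hp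
    refine ⟨fun i => (r i : ℝ), subset_closure ⟨r, hr, rfl⟩, fun i => ?_⟩
    rw [← hrp]
  choose! a ha ha' using hch
  refine Set.Finite.of_finite_image (f := fun p => connectedComponentIn S (a p)) (hM.subset ?_) ?_
  · rintro _ ⟨p, hp, rfl⟩
    exact ⟨a p, ha p hp.1, rfl⟩
  · rintro p ⟨hp, ε, hε, hiso⟩ p' ⟨hp', -⟩ heq
    by_contra hne
    simp only at heq
    -- the function
    set h : (Fin m → ℝ) → ℝ := fun x => ∑ i, (x (e (Sum.inl i)) - (p i : ℝ)) ^ 2 with hh
    have hc : Continuous h := by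
      rw [hh]
      fun_prop
    have hSs : S ⊆ {x | h x = 0 ∨ (ε : ℝ) ≤ h x} := by
      refine closure_minimal ?_ ?_
      · rintro _ ⟨r, hr, rfl⟩
        have h1 : h (fun i => ((r i : ℚ) : ℝ)) = ((dd (fun i => r (e (Sum.inl i))) p : ℚ) : ℝ) := by
          simp only [hh, dd]
          push_cast
          rfl
        show _ ∨ _
        rw [h1]
        by_cases h2 : (fun i => r (e (Sum.inl i))) = p
        · left
          rw [dd_eq_zero.2 h2]
          simp
        · right
          exact_mod_cast hiso _ (hAU r hr) h2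
      · exact (isClosed_eq hc continuous_const).union (isClosed_le continuous_const hc)
    have hK : IsPreconnected (connectedComponentIn S (a p)) := isPreconnected_connectedComponentIn
    have h1 : a p ∈ connectedComponentIn S (a p) := mem_connectedComponentIn (ha p hp)
    have h2 : a p' ∈ connectedComponentIn S (a p) := by
      rw [heq]
      exact mem_connectedComponentIn (ha p' hp')
    have hKS : connectedComponentIn S (a p) ⊆ S := connectedComponentIn_subset S (a p)
    have hp0 : h (a p) = 0 := by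
      simp only [hh, ha' p hp, sub_self]
      simp
    have hp1 : h (a p') = ((dd p' p : ℚ) : ℝ) := by
      simp only [hh, ha' p' hp', dd]
      push_cast
      rfl
    have hp2 : 0 < h (a p') := by
      rw [hp1]
      have : 0 < dd p' p := lt_of_le_of_ne (dd_nonneg _ _) fun h => hne (dd_eq_zero.1 h.symm).symm
      exact_mod_cast this
    have hε' : (0 : ℝ) < ε := by exact_mod_cast hε
    obtain ⟨x, hx, hx1, hx2⟩ := hK {x | h x < ε} {x | 0 < h x} (isOpen_lt hc continuous_const)
      (isOpen_lt continuous_const hc) (fun x _ => by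
        by_cases h3 : h x < ε
        · exact Or.inl h3
        · exact Or.inr (lt_of_lt_of_le hε' (not_lt.1 h3)))
      ⟨a p, h1, by show h (a p) < ε; rw [hp0]; exact hε'⟩ ⟨a p', h2, hp2⟩
    rcases hSs (hKS hx) with h3 | h3
    · have : (0 : ℝ) < h x := hx2
      linarith
    · have : h x < (ε : ℝ) := hx1
      linarith

end Pool.Agent.TH729.MI
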