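import Pool.Agent.TH729.MI.C
import Pool.Agent.TH729.MI.D

/-!
# Diophantine record sequences
-/

set_option autoImplicit false
set_option linter.unusedSectionVars false

namespace Pool.Agent.TH729.MI

open MvPolynomial Dioph Pool.Agent.Helper702

lemma RF.lift {α : Type} {r : (α → ℕ) → ℚ} (h : RF r) :
    RF fun w : Option α → ℕ => r (w ∘ some) := by
  obtain ⟨a, b, d, ha, hb, hd, h⟩ := h
  exact ⟨_, _, _, fn_lift ha, fn_lift hb, fn_lift hd, fun v => h _⟩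

/-- Diophantine sets over `ℚ` at codes -/
theorem DQ.dioph {τ : Type} {S : Set (τ → ℚ)} (hS : DQ S) {α : Type} {g : τ → (α → ℕ) → ℚ}
    (hg : ∀ i, RF (g i)) : Dioph {v : α → ℕ | (fun i => g i v) ∈ S} := by
  obtain ⟨κ, hκ, P, hP⟩ := hS
  obtain ⟨r, ⟨e⟩⟩ := Finite.exists_equiv_fin κ
  have h1 : Dioph {v : α → ℕ | ∃ c : ℕ,
      eval (Sum.elim (fun i => g i v) (fun k => MI.vec c (e k))) P = 0} := by
    refine ex_dioph' (fun c v => eval (Sum.elim (fun i => g i v)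
      (fun k => MI.vec c (e k))) P = 0) ?_
    have h2 : RF fun w : Option α → ℕ => eval (fun t => (Sum.elim (fun i w => g i (w ∘ some))
        (fun k w => MI.vec (w none) (e k)) : τ ⊕ κ → (Option α → ℕ) → ℚ) t w) P := by
      refine RF.poly (fun t => ?_) P
      rcases t with t | t
      · exact (hg t).lift
      · exact RF.vec fn_none _
    refine Dioph.ext (h2.eq (RF.const 0)) fun w => ?_
    simp only [Set.mem_ofPred_eq]
    have h3 : (fun t => (Sum.elim (fun i w => g i (w ∘ some))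
        (fun k w => MI.vec (w none) (e k)) : τ ⊕ κ → (Option α → ℕ) → ℚ) t w) =
        Sum.elim (fun i => g i (w ∘ some)) (fun k => MI.vec (w none) (e k)) := by
      funext t
      rcases t with t | t <;> rfl
    rw [h3]
  refine Dioph.ext h1 fun v => ?_
  simp only [Set.mem_ofPred_eq]
  rw [hP]
  constructor
  · rintro ⟨c, hc⟩
    exact ⟨_, hc⟩
  · rintro ⟨w, hw⟩
    obtain ⟨c, hc⟩ := vec_surj (w ∘ e.symm)
    refine ⟨c, ?_⟩
    have : (fun k => MI.vec c (e k)) = w := by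
      funext k
      rw [hc]
      simp
    rw [this]
    exact hw

section rec

variable {J : Type}

/-- records -/
def Rec (P Δ : MvPolynomial J ℚ) (e : J → ℕ) (c : ℕ) : Prop :=
  eval (fun j => vec c (e j)) P = 0 ∧ eval (fun j => vec c (e j)) Δ ≠ 0 ∧
    ∀ c' < c, eval (fun j => vec c' (e j)) P ≠ 0 ∨ eval (fun j => vec c' (e j)) Δ = 0 ∨
      eval (fun j => vec c (e j)) Δ < eval (fun j => vec c' (e j)) Δ

lemma rec_dioph (P Δ : MvPolynomial J ℚ) (e : J → ℕ) {α : Type} {f : (α → ℕ) → ℕ}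
    (hf : DiophFn f) : Dioph {v | Rec P Δ e (f v)} := by
  have h1 : ∀ (Q : MvPolynomial J ℚ) {β : Type} {g : (β → ℕ) → ℕ}, DiophFn g →
      RF fun v => eval (fun j => vec (g v) (e j)) Q := fun Q β g hg =>
    RF.poly (f := fun j v => vec (g v) (e j)) (fun j => RF.vec hg _) Q
  refine and_dioph ((h1 P hf).eq (RF.const 0)) (and_dioph ((h1 Δ hf).ne (RF.const 0)) ?_)
  refine ball_dioph (fun c' v => eval (fun j => vec c' (e j)) P ≠ 0 ∨
    eval (fun j => vec c' (e j)) Δ = 0 ∨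
      eval (fun j => vec (f v) (e j)) Δ < eval (fun j => vec c' (e j)) Δ) hf ?_
  exact or_dioph ((h1 P fn_none).ne (RF.const 0)) (or_dioph ((h1 Δ fn_none).eq (RF.const 0))
    ((h1 Δ (fn_lift hf)).lt (h1 Δ fn_none)))

end rec

lemma rec_exists {V : ℕ → Prop} {δ : ℕ → ℚ} (c : ℕ) (hc : V c) (hc0 : δ c ≠ 0) :
    ∃ c', (V c' ∧ δ c' ≠ 0 ∧ ∀ c'' < c', ¬ V c'' ∨ δ c'' = 0 ∨ δ c' < δ c'') ∧ δ c' ≤ δ c := by
  induction c using Nat.strong_induction_on with
  | _ c ih =>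
    by_cases h : ∀ c'' < c, ¬ V c'' ∨ δ c'' = 0 ∨ δ c < δ c''
    · exact ⟨c, ⟨hc, hc0, h⟩, le_rfl⟩
    · push Not at h
      obtain ⟨c', h1, h2, h3, h4⟩ := h
      obtain ⟨c'', h5, h6⟩ := ih c' h1 h2 h3
      exact ⟨c'', h5, h6.trans h4⟩

lemma rec_fin {V : ℕ → Prop} {δ : ℕ → ℚ} {ε : ℚ}
    (h : ∃ c, V c ∧ δ c ≠ 0 ∧ δ c < ε) :
    {c | (V c ∧ δ c ≠ 0 ∧ ∀ c' < c, ¬ V c' ∨ δ c' = 0 ∨ δ c < δ c') ∧ ε ≤ δ c}.Finite := by
  obtain ⟨c0, h1, h2, h3⟩ := h
  obtain ⟨c1, ⟨h4, h5, h6⟩, h7⟩ := rec_exists c0 h1 h2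
  refine (Set.finite_Iic c1).subset ?_
  rintro c ⟨⟨h8, h9, h10⟩, h11⟩
  by_contra hc
  have hc' : c1 < c := not_le.1 hc
  rcases h10 c1 hc' with h12 | h12 | h12
  · exact h12 h4
  · exact h5 h12
  · linarith

variable {n : ℕ} {D : Set (Fin n → ℚ)} {φ : (Fin n → ℚ) → ℤ}

/-- the vector with a given code -/
def vn (n e : ℕ) : Fin n → ℚ := fun j => vec e j

lemma vn_surj (x : Fin n → ℚ) : ∃ e, vn n e = x := by
  obtain ⟨e, he⟩ := vec_surj x
  exact ⟨e, funext he⟩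

/-- codes of the elements which represent a given natural number -/
theorem Interp.rep (I : Interp n D φ) {α : Type} {f g : (α → ℕ) → ℕ} (hf : DiophFn f)
    (hg : DiophFn g) : Dioph {v : α → ℕ | vn n (g v) ∈ D ∧ φ (vn n (g v)) = (f v : ℤ)} := by
  obtain ⟨r0, hr0, hr0'⟩ := I.surj (Set.mem_univ 0)
  obtain ⟨r1, hr1, hr1'⟩ := I.surj (Set.mem_univ 1)
  -- zero
  have hZ : DQ {x : Fin n → ℚ | x ∈ D ∧ φ x = 0} := by
    refine (I.eqq (fun j => X j) (fun j => C (r0 j))).congr fun x => ?_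
    have e1 : vv (fun j => (X j : MvPolynomial (Fin n) ℚ)) x = x := by
      funext j
      simp [vv]
    have e2 : vv (fun j => (C (r0 j) : MvPolynomial (Fin n) ℚ)) x = r0 := by
      funext j
      simp [vv]
    simp only [Set.mem_ofPred_eq, e1, e2, hr0']
    tauto
  -- successor
  have hS : DQ {x : Fin 2 × Fin n → ℚ | (fun j => x (0, j)) ∈ D ∧ (fun j => x (1, j)) ∈ D ∧
      φ (fun j => x (0, j)) + 1 = φ (fun j => x (1, j))} := by
    refine (I.add (fun j => X (0, j)) (fun j => C (r1 j)) (fun j => X (1, j))).congr fun x => ?_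
    have e1 : ∀ i : Fin 2, vv (fun j => (X (i, j) : MvPolynomial (Fin 2 × Fin n) ℚ)) x =
        fun j => x (i, j) := by
      intro i
      funext j
      simp [vv]
    have e2 : vv (fun j => (C (r1 j) : MvPolynomial (Fin 2 × Fin n) ℚ)) x = r1 := by
      funext j
      simp [vv]
    simp only [Set.mem_ofPred_eq, e1, e2, hr1']
    tauto
  have h2 : ∀ {β : Type} {a b : (β → ℕ) → ℕ}, DiophFn a → DiophFn b →
      ∀ t : Fin 2 × Fin n, RF fun v => vec (![a v, b v] t.1) t.2 := by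
    rintro β a b ha hb ⟨i, j⟩
    fin_cases i
    · exact RF.vec ha _
    · exact RF.vec hb _
  have dZ : ∀ {β : Type} {a : (β → ℕ) → ℕ}, DiophFn a →
      Dioph {v | vn n (a v) ∈ D ∧ φ (vn n (a v)) = 0} := fun ha =>
    hZ.dioph fun j => RF.vec ha _
  have dS : ∀ {β : Type} {a b : (β → ℕ) → ℕ}, DiophFn a → DiophFn b →
      Dioph {v | vn n (a v) ∈ D ∧ vn n (b v) ∈ D ∧ φ (vn n (a v)) + 1 = φ (vn n (b v))} :=
    fun ha hb => hS.dioph (h2 ha hb)
  have dE : ∀ {β : Type} {a b : (β → ℕ) → ℕ}, DiophFn a → DiophFn b →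
      Dioph {v | vn n (a v) ∈ D ∧ vn n (b v) ∈ D ∧ φ (vn n (a v)) = φ (vn n (b v))} :=
    fun ha hb => I.dE.dioph (h2 ha hb)
  -- chains
  have h3 : Dioph {v : α → ℕ | ∃ Q, (vn n (Nat.beta Q 0) ∈ D ∧ φ (vn n (Nat.beta Q 0)) = 0) ∧
      (∀ i < f v, vn n (Nat.beta Q i) ∈ D ∧ vn n (Nat.beta Q (i + 1)) ∈ D ∧
        φ (vn n (Nat.beta Q i)) + 1 = φ (vn n (Nat.beta Q (i + 1)))) ∧
      (vn n (Nat.beta Q (f v)) ∈ D ∧ vn n (g v) ∈ D ∧
        φ (vn n (Nat.beta Q (f v))) = φ (vn n (g v)))} := by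
    refine ex_dioph' (fun Q v => (vn n (Nat.beta Q 0) ∈ D ∧ φ (vn n (Nat.beta Q 0)) = 0) ∧
      (∀ i < f v, vn n (Nat.beta Q i) ∈ D ∧ vn n (Nat.beta Q (i + 1)) ∈ D ∧
        φ (vn n (Nat.beta Q i)) + 1 = φ (vn n (Nat.beta Q (i + 1)))) ∧
      (vn n (Nat.beta Q (f v)) ∈ D ∧ vn n (g v) ∈ D ∧
        φ (vn n (Nat.beta Q (f v))) = φ (vn n (g v)))) ?_
    refine and_dioph (dZ (beta_dioph fn_none (const' 0))) (and_dioph ?_
      (dE (beta_dioph fn_none (fn_lift hf)) (fn_lift hg)))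
    refine ball_dioph (f := fun w : Option α → ℕ => f (w ∘ some))
      (fun i w => vn n (Nat.beta (w none) i) ∈ D ∧
      vn n (Nat.beta (w none) (i + 1)) ∈ D ∧
        φ (vn n (Nat.beta (w none) i)) + 1 = φ (vn n (Nat.beta (w none) (i + 1))))
      (fn_lift hf) ?_
    exact dS (beta_dioph (fn_lift fn_none) fn_none)
      (beta_dioph (fn_lift fn_none) (add_dioph fn_none (const' 1)))
  refine Dioph.ext h3 fun v => ?_
  simp only [Set.mem_ofPred_eq]
  constructor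
  · rintro ⟨Q, ⟨h4, h5⟩, h6, h7, h8, h9⟩
    have h10 : ∀ i ≤ f v, φ (vn n (Nat.beta Q i)) = (i : ℤ) := by
      intro i
      induction i with
      | zero =>
        intro _
        simpa using h5
      | succ i ih =>
        intro hi
        rw [← (h6 i (by omega)).2.2, ih (by omega)]
        push_cast
        ring
    exact ⟨h8, by rw [← h9, h10 _ le_rfl]⟩
  · rintro ⟨h4, h5⟩
    have hs : ∀ t : ℕ, ∃ c : ℕ, vn n c ∈ D ∧ φ (vn n c) = (t : ℤ) := by
      intro t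
      obtain ⟨x, hx, hx'⟩ := I.surj (Set.mem_univ (t : ℤ))
      obtain ⟨c, hc⟩ := vn_surj x
      exact ⟨c, by rw [hc]; exact hx, by rw [hc]; exact hx'⟩
    choose s hs1 hs2 using hs
    obtain ⟨Q, hQ⟩ := exists_beta (f v) s
    refine ⟨Q, ?_, fun i hi => ?_, ?_⟩
    · rw [hQ 0 (Nat.zero_le _)]
      exact ⟨hs1 0, by simpa using hs2 0⟩
    · rw [hQ i hi.le, hQ (i + 1) hi]
      refine ⟨hs1 _, hs1 _, ?_⟩
      rw [hs2, hs2]
      push_cast
      ring
    · rw [hQ (f v) le_rfl]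
      exact ⟨hs1 _, h4, by rw [hs2, h5]⟩

end Pool.Agent.TH729.MI
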