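import Pool.Agent.TH729.MI.E

/-!
# Invariant Diophantine functions have finite image under Mazur's conjecture
-/

set_option autoImplicit false
set_option linter.unusedSectionVars false

namespace Pool.Agent.TH729.MI

open MvPolynomial Dioph Pool.Agent.Helper702

variable {n : ℕ} {D : Set (Fin n → ℚ)} {φ : (Fin n → ℚ) → ℤ}

/-- the sets `B z` are small, up to a finite set `F` -/
theorem core (M : Mazur) (I : Interp n D φ) {s : ℕ} {B : ℤ → Set (Fin s → ℚ)}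
    (hB : DQ {x : Fin n ⊕ Fin s → ℚ | (fun j => x (Sum.inl j)) ∈ D ∧
      (fun i => x (Sum.inr i)) ∈ B (φ fun j => x (Sum.inl j))})
    {F : Set (Fin s → ℚ)} (hF : F.Finite)
    (hsub : ∀ z, ∀ u ∈ B z, ∀ u' ∈ B z, u ≠ u' → u ∈ F) : (⋃ z, B z).Finite := by
  classical
  by_contra hinf
  set U : Set (Fin s → ℚ) := ⋃ z, B z with hUdef
  have hU : DQ U := by
    refine DQ.congr (DQ.ex' (τ := Fin s) (ι := Fin n) (R := fun u x => x ∈ D ∧ u ∈ B (φ x))
      (hB.re Sum.swap)) fun u => ?_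
    simp only [Set.mem_ofPred_eq, hUdef, Set.mem_iUnion]
    constructor
    · rintro ⟨z, hz⟩
      obtain ⟨x, hx, rfl⟩ := I.surj (Set.mem_univ z)
      exact ⟨x, hx, hz⟩
    · rintro ⟨x, -, hx⟩
      exact ⟨_, hx⟩
  -- a point which is not isolated
  obtain ⟨p, hp, hpn⟩ : ∃ p ∈ U, ∀ ε : ℚ, 0 < ε → ∃ u ∈ U, u ≠ p ∧ dd u p < ε := by
    by_contra hcon
    push Not at hcon
    refine hinf ((iso_finite M hU).subset fun p hp => ⟨hp, ?_⟩)
    obtain ⟨ε, hε, h⟩ := hcon p hp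
    exact ⟨ε, hε, h⟩
  obtain ⟨κ, hκ, P, hP⟩ := hB
  obtain ⟨L, ⟨e⟩⟩ := Finite.exists_equiv_fin ((Fin n ⊕ Fin s) ⊕ κ)
  set dc : ℕ → Fin n → ℚ := fun c j => vec c (e (Sum.inl (Sum.inl j))) with hdc
  set uc : ℕ → Fin s → ℚ := fun c i => vec c (e (Sum.inl (Sum.inr i))) with huc
  set Δ : MvPolynomial ((Fin n ⊕ Fin s) ⊕ κ) ℚ :=
    ∑ i, (X (Sum.inl (Sum.inr i)) - C (p i)) ^ 2 with hΔ
  set V : ℕ → Prop := fun c => eval (fun j => vec c (e j)) P = 0 with hV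
  have hΔe : ∀ c, eval (fun j => vec c (e j)) Δ = dd (uc c) p := by
    intro c
    simp only [hΔ, map_sum, map_pow, map_sub, eval_X, eval_C, dd, huc]
  have hVs : ∀ c, V c → dc c ∈ D ∧ uc c ∈ B (φ (dc c)) := by
    intro c hc
    have h1 := (hP (Sum.elim (dc c) (uc c))).2 ⟨fun k => vec c (e (Sum.inr k)), by
      rw [← show eval (fun j => vec c (e j)) P = 0 from hc]
      congr 1
      congr 1
      funext t
      rcases t with (t | t) | t <;> rfl⟩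
    exact h1
  have hVc : ∀ x ∈ D, ∀ u ∈ B (φ x), ∃ c, V c ∧ dc c = x ∧ uc c = u := by
    intro x hx u hu
    obtain ⟨w, hw⟩ := (hP (Sum.elim x u)).1 ⟨hx, hu⟩
    obtain ⟨c, hc⟩ := vec_surj (fun t => Sum.elim (Sum.elim x u) w (e.symm t))
    have hc' : ∀ j, vec c (e j) = Sum.elim (Sum.elim x u) w j := by
      intro j
      rw [hc]
      simp
    refine ⟨c, ?_, ?_, ?_⟩
    · show eval (fun j => vec c (e j)) P = 0
      rw [← hw]
      congr 1
      congr 1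
      funext t
      exact hc' t
    · funext j
      exact hc' _
    · funext j
      exact hc' _
  set W : ℕ → Prop := Rec P Δ (fun j => (e j : ℕ)) with hW
  have hWiff : ∀ c, W c ↔ (V c ∧ dd (uc c) p ≠ 0 ∧
      ∀ c' < c, ¬ V c' ∨ dd (uc c') p = 0 ∨ dd (uc c) p < dd (uc c') p) := by
    intro c
    simp only [hW, Rec, hΔe, hV]
  -- small codes
  have hsmall : ∀ ε : ℚ, 0 < ε → ∃ c, V c ∧ dd (uc c) p ≠ 0 ∧ dd (uc c) p < ε := by
    intro ε hε
    obtain ⟨u, hu, hup, hlt⟩ := hpn ε hε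
    obtain ⟨z, hz⟩ := Set.mem_iUnion.1 hu
    obtain ⟨x, hx, rfl⟩ := I.surj (Set.mem_univ z)
    obtain ⟨c, hc, -, rfl⟩ := hVc x hx u hz
    exact ⟨c, hc, fun h => hup (dd_eq_zero.1 h), hlt⟩
  -- the set of integers
  set T' : Set (Fin 2 → ℕ) := {v | ∃ c, W c ∧ φ (dc c) = (v 0 : ℤ) - (v 1 : ℤ)} with hT'
  have hT'd : Dioph T' := by
    have h1 : Dioph {v : Fin 2 → ℕ | ∃ c, W c ∧ ∃ e1, ∃ e2,
        (vn n e1 ∈ D ∧ φ (vn n e1) = (v 0 : ℤ)) ∧ (vn n e2 ∈ D ∧ φ (vn n e2) = (v 1 : ℤ)) ∧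
        (dc c ∈ D ∧ vn n e2 ∈ D ∧ vn n e1 ∈ D ∧ φ (dc c) + φ (vn n e2) = φ (vn n e1))} := by
      refine ex_dioph' (fun c (v : Fin 2 → ℕ) => W c ∧ ∃ e1, ∃ e2,
        (vn n e1 ∈ D ∧ φ (vn n e1) = (v 0 : ℤ)) ∧ (vn n e2 ∈ D ∧ φ (vn n e2) = (v 1 : ℤ)) ∧
        (dc c ∈ D ∧ vn n e2 ∈ D ∧ vn n e1 ∈ D ∧ φ (dc c) + φ (vn n e2) = φ (vn n e1))) ?_
      refine and_dioph (rec_dioph P Δ _ fn_none) ?_
      refine ex_dioph' (fun e1 (w : Option (Fin 2) → ℕ) => ∃ e2,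
        (vn n e1 ∈ D ∧ φ (vn n e1) = (w (some 0) : ℤ)) ∧
        (vn n e2 ∈ D ∧ φ (vn n e2) = (w (some 1) : ℤ)) ∧
        (dc (w none) ∈ D ∧ vn n e2 ∈ D ∧ vn n e1 ∈ D ∧
          φ (dc (w none)) + φ (vn n e2) = φ (vn n e1))) ?_
      refine ex_dioph' (fun e2 (w : Option (Option (Fin 2)) → ℕ) =>
        (vn n (w none) ∈ D ∧ φ (vn n (w none)) = (w (some (some 0)) : ℤ)) ∧
        (vn n e2 ∈ D ∧ φ (vn n e2) = (w (some (some 1)) : ℤ)) ∧
        (dc (w (some none)) ∈ D ∧ vn n e2 ∈ D ∧ vn n (w none) ∈ D ∧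
          φ (dc (w (some none))) + φ (vn n e2) = φ (vn n (w none)))) ?_
      refine and_dioph (I.rep (proj_dioph (some (some (some 0)))) (proj_dioph (some none)))
        (and_dioph (I.rep (proj_dioph (some (some (some 1)))) (proj_dioph none)) ?_)
      have h2 : ∀ t : Fin 3 × Fin n, RF fun v : Option (Option (Option (Fin 2))) → ℕ =>
          (![dc (v (some (some none))), vn n (v none), vn n (v (some none))] t.1) t.2 := by
        rintro ⟨i, j⟩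
        fin_cases i
        · exact RF.vec (proj_dioph (some (some none))) _
        · exact RF.vec (proj_dioph none) _
        · exact RF.vec (proj_dioph (some none)) _
      exact I.dA.dioph h2
    refine Dioph.ext h1 fun v => ?_
    simp only [Set.mem_ofPred_eq, hT']
    constructor
    · rintro ⟨c, hc, e1, e2, ⟨h3, h4⟩, ⟨h5, h6⟩, -, -, -, h7⟩
      exact ⟨c, hc, by rw [← h4, ← h6, ← h7]; ring⟩
    · rintro ⟨c, hc, h3⟩
      obtain ⟨x, hx, hx'⟩ := I.surj (Set.mem_univ ((v 0 : ℕ) : ℤ))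
      obtain ⟨y, hy, hy'⟩ := I.surj (Set.mem_univ ((v 1 : ℕ) : ℤ))
      obtain ⟨e1, rfl⟩ := vn_surj x
      obtain ⟨e2, rfl⟩ := vn_surj y
      exact ⟨c, hc, e1, e2, ⟨hx, hx'⟩, ⟨hy, hy'⟩, (hVs c ((hWiff c).1 hc).1).1, hy, hx, by
        rw [h3, hx', hy']
        ring⟩
  -- the set of values
  set UT : Set (Fin s → ℚ) := {u | ∃ c, W c ∧ u ∈ B (φ (dc c))} with hUT
  have hUTd : DQ UT := by
    refine DQ.congr (DQ.exv (n := n) (ι := Fin 3) (R := fun (u : Fin s → ℚ) y =>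
      ((∀ i : Fin 2, y i.castSucc ∈ D ∧ 0 ≤ φ (y i.castSucc)) ∧
        (fun i : Fin 2 => (φ (y i.castSucc)).toNat) ∈ T') ∧
      (y 2 ∈ D ∧ y 1 ∈ D ∧ y 0 ∈ D ∧ φ (y 2) + φ (y 1) = φ (y 0)) ∧
      (y 2 ∈ D ∧ u ∈ B (φ (y 2)))) ?_) fun u => ?_
    · have h1 := I.dioph hT'd (τ := Fin s ⊕ (Fin 3 × Fin n)) (fun i : Fin 2 => nw i.castSucc)
      have h2 := I.add (τ := Fin s ⊕ (Fin 3 × Fin n)) (nw 2) (nw 1) (nw 0)
      have h3 : DQ {z : Fin s ⊕ (Fin 3 × Fin n) → ℚ | (fun j => z (Sum.inr (2, j))) ∈ D ∧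
          (fun i => z (Sum.inl i)) ∈ B (φ fun j => z (Sum.inr (2, j)))} :=
        DQ.re (S := {x : Fin n ⊕ Fin s → ℚ | (fun j => x (Sum.inl j)) ∈ D ∧
          (fun i => x (Sum.inr i)) ∈ B (φ fun j => x (Sum.inl j))}) ⟨κ, hκ, P, hP⟩
          (Sum.elim (fun j => Sum.inr (2, j)) fun i => Sum.inl i)
      refine (h1.and (h2.and h3)).congr fun z => ?_
      simp only [Set.mem_ofPred_eq, vv_nw]
    · simp only [Set.mem_ofPred_eq, hUT]
      constructor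
      · rintro ⟨c, hc, hu⟩
        have hs : ∀ t : ℤ, ∃ y ∈ D, φ y = t := fun t => I.surj (Set.mem_univ t)
        choose g hg hg' using hs
        set z := φ (dc c) with hz
        have h5 : ∀ i : Fin 2, (![g (z.toNat : ℤ), g ((-z).toNat : ℤ), g z] : Fin 3 → Fin n → ℚ)
            i.castSucc ∈ D ∧ φ ((![g (z.toNat : ℤ), g ((-z).toNat : ℤ), g z] :
              Fin 3 → Fin n → ℚ) i.castSucc) = (![z.toNat, (-z).toNat] i : ℕ) := by
          intro i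
          fin_cases i
          · exact ⟨hg _, hg' _⟩
          · exact ⟨hg _, hg' _⟩
        refine ⟨![g (z.toNat : ℤ), g ((-z).toNat : ℤ), g z], ⟨fun i => ⟨(h5 i).1, ?_⟩, ?_⟩,
          ⟨hg _, hg _, hg _, ?_⟩, hg _, ?_⟩
        · rw [(h5 i).2]
          positivity
        · refine ⟨c, hc, ?_⟩
          beta_reduce
          rw [(h5 0).2, (h5 1).2]
          simp only [Int.toNat_natCast, Matrix.cons_val_zero, Matrix.cons_val_one,
            Matrix.cons_val_fin_one]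
          omega
        · show φ (g z) + φ (g ((-z).toNat : ℤ)) = φ (g (z.toNat : ℤ))
          rw [hg', hg', hg']
          omega
        · show u ∈ B (φ (g z))
          rw [hg']
          exact hu
      · rintro ⟨y, ⟨h1, c, hc, h2⟩, ⟨-, -, -, h3⟩, -, h4⟩
        refine ⟨c, hc, ?_⟩
        have h5 : φ (y 2) = φ (dc c) := by
          have h6 := (h1 0).2
          have h7 := (h1 1).2
          rw [Int.toNat_of_nonneg h6, Int.toNat_of_nonneg h7] at h2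
          have h8 : φ (y 2) + φ (y (Fin.castSucc 1)) = φ (y (Fin.castSucc 0)) := h3
          rw [h2]
          linarith
        rwa [← h5]
  -- the points of `UT`
  have hmem : ∀ u ∈ UT, u ∉ F → ∃ c, W c ∧ u = uc c := by
    rintro u ⟨c, hc, hu⟩ huF
    refine ⟨c, hc, ?_⟩
    by_contra hne
    exact huF (hsub _ u hu (uc c) (hVs c ((hWiff c).1 hc).1).2 hne)
  have hiso : ∀ u ∈ UT, u ∉ F → u ≠ p → ∃ ε : ℚ, 0 < ε ∧ ∀ u' ∈ UT, u' ≠ u → ε ≤ dd u' u := by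
    intro u hu huF hup
    have hd : 0 < dd u p := lt_of_le_of_ne (dd_nonneg _ _) fun h => hup (dd_eq_zero.1 h.symm)
    -- the far points
    have hG : {u' | u' ∈ UT ∧ u' ≠ u ∧ dd u p / 4 ≤ dd u' p}.Finite := by
      have h1 := rec_fin (V := V) (δ := fun c => dd (uc c) p) (hsmall (dd u p / 4) (by linarith))
      refine ((h1.image uc).union hF).subset ?_
      rintro u' ⟨h2, -, h3⟩
      by_cases h4 : u' ∈ F
      · exact Or.inr h4
      · obtain ⟨c, hc, rfl⟩ := hmem u' h2 h4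
        exact Or.inl ⟨c, ⟨(hWiff c).1 hc, h3⟩, rfl⟩
    obtain ⟨ε, hε, hε'⟩ : ∃ ε : ℚ, 0 < ε ∧ ∀ u' ∈ {u' | u' ∈ UT ∧ u' ≠ u ∧
        dd u p / 4 ≤ dd u' p}, ε ≤ dd u' u := by
      rcases Set.eq_empty_or_nonempty {u' | u' ∈ UT ∧ u' ≠ u ∧ dd u p / 4 ≤ dd u' p} with h | h
      · exact ⟨1, one_pos, by rw [h]; simp⟩
      · obtain ⟨u', h1, h2⟩ := Set.exists_min_image _ (fun u' => dd u' u) hG h
        exact ⟨dd u' u, lt_of_le_of_ne (dd_nonneg _ _) fun h => h1.2.1 (dd_eq_zero.1 h.symm), h2⟩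
    refine ⟨min ε (dd u p / 4), lt_min hε (by linarith), fun u' h1 h2 => ?_⟩
    by_cases h3 : dd u p / 4 ≤ dd u' p
    · exact (min_le_left _ _).trans (hε' u' ⟨h1, h2, h3⟩)
    · refine (min_le_right _ _).trans ?_
      have h4 := dd_tri u u' p
      push Not at h3
      linarith
  have hUTfin : UT.Finite := by
    refine (((iso_finite M hUTd).union hF).union (Set.finite_singleton p)).subset fun u hu => ?_
    by_cases h1 : u ∈ F
    · exact Or.inl (Or.inr h1)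
    · by_cases h2 : u = p
      · exact Or.inr h2
      · exact Or.inl (Or.inl ⟨hu, hiso u hu h1 h2⟩)
  -- but it is infinite
  obtain ⟨c0, h0, h0', h0''⟩ := hsmall 1 one_pos
  have hne : {u | u ∈ UT ∧ u ≠ p}.Nonempty := by
    obtain ⟨c, hc, -⟩ := rec_exists (V := V) (δ := fun c => dd (uc c) p) c0 h0 h0'
    exact ⟨uc c, ⟨c, (hWiff c).2 hc, (hVs c hc.1).2⟩, fun h => hc.2.1 (dd_eq_zero.2 h)⟩
  obtain ⟨u, ⟨hu, hup⟩, hmin⟩ := Set.exists_min_image _ (fun u => dd u p)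
    (hUTfin.subset fun u hu => hu.1 : {u | u ∈ UT ∧ u ≠ p}.Finite) hne
  have hd : 0 < dd u p := lt_of_le_of_ne (dd_nonneg _ _) fun h => hup (dd_eq_zero.1 h.symm)
  obtain ⟨c, hc, hc', hlt⟩ := hsmall (dd u p) hd
  obtain ⟨c', hc'', hle⟩ := rec_exists (V := V) (δ := fun c => dd (uc c) p) c hc hc'
  have h9 := hmin (uc c') ⟨⟨c', (hWiff c').2 hc'', (hVs c' hc''.1).2⟩,
    fun h => hc''.2.1 (dd_eq_zero.2 h)⟩
  have h10 : dd u p ≤ dd (uc c') p := h9
  have h11 : dd (uc c') p ≤ dd (uc c) p := hle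
  linarith

end Pool.Agent.TH729.MI
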