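import Pool.Agent.TH729.MI.F

/-!
# Spans
-/

set_option autoImplicit false
set_option linter.unusedSectionVars false

namespace Pool.Agent.TH729.MI

open MvPolynomial Dioph Pool.Agent.Helper702

variable {n : ℕ} {D : Set (Fin n → ℚ)} {φ : (Fin n → ℚ) → ℤ}

/-- invariant Diophantine functions have finite image -/
theorem core' (M : Mazur) (I : Interp n D φ) {σ : Type} [Finite σ] {B : ℤ → Set (σ → ℚ)}
    (hB : DQ {x : Fin n ⊕ σ → ℚ | (fun j => x (Sum.inl j)) ∈ D ∧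
      (fun i => x (Sum.inr i)) ∈ B (φ fun j => x (Sum.inl j))})
    (hsub : ∀ z, (B z).Subsingleton) : (⋃ z, B z).Finite := by
  obtain ⟨s, ⟨e⟩⟩ := Finite.exists_equiv_fin σ
  set B' : ℤ → Set (Fin s → ℚ) := fun z => {u | (fun i => u (e i)) ∈ B z} with hB'
  have h1 : DQ {x : Fin n ⊕ Fin s → ℚ | (fun j => x (Sum.inl j)) ∈ D ∧
      (fun i => x (Sum.inr i)) ∈ B' (φ fun j => x (Sum.inl j))} :=
    hB.re (Sum.map id e)
  have h2 := core M I h1 (F := ∅) Set.finite_empty fun z u hu u' hu' hne => (hne (by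
    funext i
    have h3 := congrFun (hsub z hu hu') (e.symm i)
    simpa using h3)).elim
  refine (h2.image fun u i => u (e i)).subset ?_
  rintro u hu
  obtain ⟨z, hz⟩ := Set.mem_iUnion.1 hu
  refine ⟨fun i => u (e.symm i), Set.mem_iUnion.2 ⟨z, ?_⟩, ?_⟩
  · show (fun i => u (e.symm (e i))) ∈ B z
    simpa using hz
  · funext i
    simp

section lin

variable {κ : Type} [Fintype κ] [DecidableEq κ] {r : ℕ}

open Matrix

/-- `P` is the orthogonal projection to the span of the rows of `H` -/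
def Proj (H : Matrix (Fin r) κ ℚ) (Y : Matrix (Fin r) (Fin r) ℚ) (P : Matrix κ κ ℚ) : Prop :=
  Y * (H * Hᵀ) = 1 ∧ P = Hᵀ * Y * H

lemma Proj.symm {H : Matrix (Fin r) κ ℚ} {Y : Matrix (Fin r) (Fin r) ℚ} {P : Matrix κ κ ℚ}
    (h : Proj H Y P) : Pᵀ = P := by
  obtain ⟨h1, h2⟩ := h
  have h3 : (H * Hᵀ) * Y = 1 := mul_eq_one_comm.1 h1
  have h4 : Yᵀ * (H * Hᵀ) = 1 := by
    have := congrArg transpose h3
    rw [transpose_mul, transpose_mul, transpose_transpose, transpose_one] at this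
    exact this
  have h5 : Yᵀ = Y := by
    calc Yᵀ = Yᵀ * ((H * Hᵀ) * Y) := by rw [h3, mul_one]
      _ = (Yᵀ * (H * Hᵀ)) * Y := by rw [mul_assoc]
      _ = Y := by rw [h4, one_mul]
  rw [h2, transpose_mul, transpose_mul, transpose_transpose, h5, Matrix.mul_assoc]

lemma Proj.fix {H : Matrix (Fin r) κ ℚ} {Y : Matrix (Fin r) (Fin r) ℚ} {P : Matrix κ κ ℚ}
    (h : Proj H Y P) : P * Hᵀ = Hᵀ := by
  obtain ⟨h1, h2⟩ := h
  rw [h2, Matrix.mul_assoc, Matrix.mul_assoc, h1, Matrix.mul_one]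

/-- fixed vectors -/
def fixd (P : Matrix κ κ ℚ) : Submodule ℚ (κ → ℚ) :=
  LinearMap.eqLocus (mulVecLin P) LinearMap.id

lemma mem_fixd {P : Matrix κ κ ℚ} {v : κ → ℚ} : v ∈ fixd P ↔ P *ᵥ v = v := by
  simp [fixd]

lemma Proj.fixd_eq {H : Matrix (Fin r) κ ℚ} {Y : Matrix (Fin r) (Fin r) ℚ} {P : Matrix κ κ ℚ}
    (h : Proj H Y P) : fixd P = Submodule.span ℚ (Set.range fun i => H i) := by
  apply le_antisymm
  · intro v hv
    rw [mem_fixd] at hv
    rw [← hv, h.2, ← mulVec_mulVec, ← mulVec_mulVec]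
    rw [mulVec_transpose, vecMul_eq_sum]
    exact Submodule.sum_mem _ fun i _ => Submodule.smul_mem _ _ (Submodule.subset_span ⟨i, rfl⟩)
  · rw [Submodule.span_le]
    rintro _ ⟨i, rfl⟩
    show H i ∈ fixd P
    rw [mem_fixd]
    have h1 : (P * Hᵀ) *ᵥ Pi.single i 1 = Hᵀ *ᵥ Pi.single i 1 := by rw [h.fix]
    rw [← mulVec_mulVec, mulVec_single_one] at h1
    exact h1

lemma Proj.indep {H : Matrix (Fin r) κ ℚ} {Y : Matrix (Fin r) (Fin r) ℚ} {P : Matrix κ κ ℚ}
    (h : Proj H Y P) : LinearIndependent ℚ fun i => H i := by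
  rw [Fintype.linearIndependent_iff]
  intro c hc
  have h1 : c ᵥ* H = 0 := by
    rw [vecMul_eq_sum]
    exact hc
  have h2 : (H * Hᵀ) * Y = 1 := mul_eq_one_comm.1 h.1
  have h3 : c ᵥ* ((H * Hᵀ) * Y) = 0 := by
    rw [← vecMul_vecMul, ← vecMul_vecMul, h1, zero_vecMul, zero_vecMul]
  rw [h2, vecMul_one] at h3
  exact fun i => congrFun h3 i

lemma Proj.unique {H H' : Matrix (Fin r) κ ℚ} {Y Y' : Matrix (Fin r) (Fin r) ℚ}
    {P P' : Matrix κ κ ℚ} (h : Proj H Y P) (h' : Proj H' Y' P')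
    (hs : Submodule.span ℚ (Set.range fun i => H i) =
      Submodule.span ℚ (Set.range fun i => H' i)) : P = P' := by
  have key : ∀ {H H' : Matrix (Fin r) κ ℚ} {Y Y' : Matrix (Fin r) (Fin r) ℚ}
      {P P' : Matrix κ κ ℚ}, Proj H Y P → Proj H' Y' P' →
      Submodule.span ℚ (Set.range fun i => H i) =
      Submodule.span ℚ (Set.range fun i => H' i) → P * P' = P' := by
    intro H H' Y Y' P P' h h' hs
    have h1 : P * H'ᵀ = H'ᵀ := by
      ext a i
      have h2 : H' i ∈ fixd P := by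
        rw [h.fixd_eq, hs]
        exact Submodule.subset_span ⟨i, rfl⟩
      rw [mem_fixd] at h2
      have h3 := congrFun h2 a
      rw [transpose_apply, ← h3]
      rfl
    rw [h'.2, ← Matrix.mul_assoc, ← Matrix.mul_assoc, h1]
  have h1 := key h h' hs
  have h2 := key h' h hs.symm
  have h3 := congrArg transpose h1
  rw [transpose_mul, h.symm, h'.symm, h2] at h3
  exact h3

lemma exists_Proj {H : Matrix (Fin r) κ ℚ} (h : LinearIndependent ℚ fun i => H i) :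
    ∃ Y P, Proj H Y P := by
  have hdet : (H * Hᵀ).det ≠ 0 := by
    intro h0
    obtain ⟨c, hc, hc'⟩ := exists_vecMul_eq_zero_iff.2 h0
    apply hc
    have h1 : (c ᵥ* H) ⬝ᵥ (c ᵥ* H) = 0 := by
      have h2 : (c ᵥ* (H * Hᵀ)) ⬝ᵥ c = 0 := by rw [hc', zero_dotProduct]
      rw [← vecMul_vecMul, vecMul_transpose] at h2
      rw [← h2, dotProduct_comm (H *ᵥ _), dotProduct_mulVec]
    have h3 : c ᵥ* H = 0 := dotProduct_self_eq_zero.1 h1
    rw [vecMul_eq_sum] at h3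
    exact funext fun i => Fintype.linearIndependent_iff.1 h c h3 i
  have hu : IsUnit (H * Hᵀ).det := isUnit_iff_ne_zero.2 hdet
  exact ⟨(H * Hᵀ)⁻¹, _, nonsing_inv_mul _ hu, rfl⟩

end lin

end Pool.Agent.TH729.MI
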