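import Pool.Agent.TH729.MI.G

/-!
# Spans of classes under Mazur's conjecture
-/

set_option autoImplicit false
set_option linter.unusedSectionVars false

namespace Pool.Agent.TH729.MI

open MvPolynomial Dioph Pool.Agent.Helper702 Matrix

variable {n : ℕ} {D : Set (Fin n → ℚ)} {φ : (Fin n → ℚ) → ℤ}

/-- nonnegative values of integer polynomials -/
theorem Interp.posQ (I : Interp n D φ) {ι : Type} [Finite ι] (Q : MvPolynomial ι ℤ) {τ : Type}
    (V : ι → Fin n → MvPolynomial τ ℚ) :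
    DQ {x : τ → ℚ | (∀ i, vv (V i) x ∈ D) ∧ 0 ≤ eval (fun i => φ (vv (V i) x)) Q} := by
  refine DQ.congr (DQ.exv (n := n) (ι := Fin 1) (R := fun (x : τ → ℚ) y =>
    ((∀ i, vv (V i) x ∈ D) ∧ y 0 ∈ D ∧ φ (y 0) = eval (fun i => φ (vv (V i) x)) Q) ∧
    (y 0 ∈ D ∧ 0 ≤ φ (y 0))) ?_) fun x => ?_
  · refine ((I.poly Q (fun i => up (V i)) (nw 0)).and (I.nonneg (nw 0))).congr fun z => ?_
    simp only [Set.mem_ofPred_eq, vv_up, vv_nw]
  · simp only [Set.mem_ofPred_eq]
    constructor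
    · rintro ⟨h1, h2⟩
      obtain ⟨a, ha, ha'⟩ := I.surj (Set.mem_univ (eval (fun i => φ (vv (V i) x)) Q))
      refine ⟨![a], ⟨h1, ha, ha'⟩, ha, ?_⟩
      show 0 ≤ φ a
      rw [ha']
      exact h2
    · rintro ⟨y, ⟨h1, -, h2⟩, -, h3⟩
      exact ⟨h1, by rw [← h2]; exact h3⟩

/-- finitely many integers can be avoided -/
theorem Interp.avoid (I : Interp n D φ) (Z : Finset ℤ) {τ : Type}
    (V : Fin n → MvPolynomial τ ℚ) :
    DQ {x : τ → ℚ | vv V x ∈ D ∧ φ (vv V x) ∉ Z} := by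
  refine (I.posQ ((∏ z ∈ Z, (X () - C z)) ^ 2 - 1 : MvPolynomial Unit ℤ) fun _ => V).congr
    fun x => ?_
  simp only [Set.mem_ofPred_eq, map_sub, map_pow, map_prod, eval_X, eval_C, map_one]
  constructor
  · rintro ⟨h1, h2⟩
    refine ⟨fun _ => h1, ?_⟩
    have h3 : ∏ z ∈ Z, (φ (vv V x) - z) ≠ 0 := by
      rw [Finset.prod_ne_zero_iff]
      intro z hz h0
      rw [sub_eq_zero] at h0
      exact h2 (h0 ▸ hz)
    have h4 : 0 < (∏ z ∈ Z, (φ (vv V x) - z)) ^ 2 := by positivity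
    omega
  · rintro ⟨h1, h2⟩
    refine ⟨h1 (), fun h3 => ?_⟩
    have h4 : ∏ z ∈ Z, (φ (vv V x) - z) = 0 := Finset.prod_eq_zero h3 (sub_self _)
    rw [h4] at h2
    norm_num at h2

/-- the projections -/
def PB {κ : Type} [Fintype κ] (B : ℤ → Set (κ → ℚ)) (Z : Finset ℤ) (r : ℕ) (z : ℤ) :
    Set (κ × κ → ℚ) :=
  {u | z ∉ Z ∧ ∃ (H : Matrix (Fin r) κ ℚ) (Y : Matrix (Fin r) (Fin r) ℚ),
    (∀ i, H i ∈ B z) ∧ Proj H Y (Matrix.of fun a b => u (a, b))}

theorem PB_DQ (I : Interp n D φ) {κ : Type} [Fintype κ] [DecidableEq κ] {B : ℤ → Set (κ → ℚ)}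
    (hB : DQ {x : Fin n ⊕ κ → ℚ | (fun j => x (Sum.inl j)) ∈ D ∧
      (fun i => x (Sum.inr i)) ∈ B (φ fun j => x (Sum.inl j))}) (Z : Finset ℤ) (r : ℕ) :
    DQ {x : Fin n ⊕ (κ × κ) → ℚ | (fun j => x (Sum.inl j)) ∈ D ∧
      (fun i => x (Sum.inr i)) ∈ PB B Z r (φ fun j => x (Sum.inl j))} := by
  classical
  refine DQ.congr (DQ.ex' (τ := Fin n ⊕ (κ × κ)) (ι := (Fin r × κ) ⊕ (Fin r × Fin r))
    (R := fun x y => (((fun j => x (Sum.inl j)) ∈ D ∧ φ (fun j => x (Sum.inl j)) ∉ Z) ∧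
      (∀ i, ((fun j => x (Sum.inl j)) ∈ D ∧
        (fun a => y (Sum.inl (i, a))) ∈ B (φ fun j => x (Sum.inl j))))) ∧
      ((∀ t : Fin r × Fin r, ∑ j, y (Sum.inr (t.1, j)) *
        ∑ a, y (Sum.inl (j, a)) * y (Sum.inl (t.2, a)) = if t.1 = t.2 then 1 else 0) ∧
      (∀ t : κ × κ, x (Sum.inr t) = ∑ j, (∑ i, y (Sum.inl (i, t.1)) * y (Sum.inr (i, j))) *
        y (Sum.inl (j, t.2))))) ?_) fun x => ?_
  · have h1 : DQ {z : (Fin n ⊕ (κ × κ)) ⊕ ((Fin r × κ) ⊕ (Fin r × Fin r)) → ℚ |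
        (fun j => z (Sum.inl (Sum.inl j))) ∈ D ∧ φ (fun j => z (Sum.inl (Sum.inl j))) ∉ Z} := by
      refine (I.avoid Z fun j => X (Sum.inl (Sum.inl j))).congr fun z => ?_
      have e1 : vv (fun j => X (Sum.inl (Sum.inl j))) z = fun j : Fin n =>
          z (Sum.inl (Sum.inl j)) := by
        funext j
        simp [vv]
      simp only [Set.mem_ofPred_eq, e1]
    have h2 := fun i : Fin r => hB.re (τ' := (Fin n ⊕ (κ × κ)) ⊕
      ((Fin r × κ) ⊕ (Fin r × Fin r))) (Sum.elim (fun j => Sum.inl (Sum.inl j))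
        fun a => Sum.inr (Sum.inl (i, a)))
    have h3 := fun t : Fin r × Fin r => DQ.eq (τ := (Fin n ⊕ (κ × κ)) ⊕
      ((Fin r × κ) ⊕ (Fin r × Fin r)))
      (∑ j, X (Sum.inr (Sum.inr (t.1, j))) * ∑ a, X (Sum.inr (Sum.inl (j, a))) *
        X (Sum.inr (Sum.inl (t.2, a)))) (if t.1 = t.2 then 1 else 0)
    have h4 := fun t : κ × κ => DQ.eq (τ := (Fin n ⊕ (κ × κ)) ⊕
      ((Fin r × κ) ⊕ (Fin r × Fin r))) (X (Sum.inl (Sum.inr t)))
      (∑ j, (∑ i, X (Sum.inr (Sum.inl (i, t.1))) * X (Sum.inr (Sum.inr (i, j)))) *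
        X (Sum.inr (Sum.inl (j, t.2))))
    refine ((h1.and (DQ.forall' h2)).and ((DQ.forall' h3).and (DQ.forall' h4))).congr fun z => ?_
    have h5 : ∀ t : Fin r × Fin r, eval z (if t.1 = t.2 then 1 else 0 : MvPolynomial
        ((Fin n ⊕ (κ × κ)) ⊕ ((Fin r × κ) ⊕ (Fin r × Fin r))) ℚ) =
        if t.1 = t.2 then 1 else 0 := by
      intro t
      split_ifs <;> simp
    simp only [Set.mem_ofPred_eq, map_sum, map_mul, eval_X, h5, Sum.elim_inl, Sum.elim_inr]
  · simp only [Set.mem_ofPred_eq, PB]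
    constructor
    · rintro ⟨h1, h2, H, Y, h3, h4, h5⟩
      refine ⟨Sum.elim (fun t => H t.1 t.2) (fun t => Y t.1 t.2), ⟨⟨h1, h2⟩, fun i => ⟨h1, h3 i⟩⟩,
        fun t => ?_, fun t => ?_⟩
      · have := congrFun (congrFun h4 t.1) t.2
        simp only [Matrix.mul_apply, transpose_apply, one_apply] at this
        exact this
      · have := congrFun (congrFun h5 t.1) t.2
        simp only [Matrix.mul_apply, transpose_apply, of_apply] at this
        exact this
    · rintro ⟨y, ⟨⟨h1, h2⟩, h3⟩, h4, h5⟩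
      refine ⟨h1, h2, Matrix.of fun i a => y (Sum.inl (i, a)),
        Matrix.of fun i j => y (Sum.inr (i, j)), fun i => (h3 i).2, ?_, ?_⟩
      · ext i k
        have := h4 (i, k)
        simp only [Matrix.mul_apply, transpose_apply, one_apply, of_apply]
        exact this
      · ext a b
        have := h5 (a, b)
        simp only [Matrix.mul_apply, transpose_apply, of_apply]
        exact this

/-- **spans** -/
theorem spans (M : Mazur) (I : Interp n D φ) {κ : Type} [Finite κ] {B : ℤ → Set (κ → ℚ)}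
    (hB : DQ {x : Fin n ⊕ κ → ℚ | (fun j => x (Sum.inl j)) ∈ D ∧
      (fun i => x (Sum.inr i)) ∈ B (φ fun j => x (Sum.inl j))}) :
    ∃ Λ : Submodule ℚ (κ → ℚ), {z | Submodule.span ℚ (B z) = Λ}.Infinite ∧
      {z | Module.finrank ℚ Λ < Module.finrank ℚ (Submodule.span ℚ (B z))}.Finite := by
  classical
  have : Fintype κ := Fintype.ofFinite κ
  set dim : ℤ → ℕ := fun z => Module.finrank ℚ (Submodule.span ℚ (B z)) with hdim
  obtain ⟨r, hr1, hr2⟩ : ∃ r, {z | r ≤ dim z}.Infinite ∧ {z | r + 1 ≤ dim z}.Finite := by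
    by_contra hcon
    push Not at hcon
    have h1 : ∀ r, {z | r ≤ dim z}.Infinite := by
      intro r
      induction r with
      | zero =>
        have : {z : ℤ | 0 ≤ dim z} = Set.univ := by
          ext z
          simp
        rw [this]
        exact Set.infinite_univ
      | succ r ih => exact hcon r ih
    obtain ⟨z, hz⟩ := (h1 (Fintype.card κ + 1)).nonempty
    have h2 : dim z ≤ Fintype.card κ := by
      have := Submodule.finrank_le (Submodule.span ℚ (B z))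
      rwa [Module.finrank_fintype_fun_eq_card] at this
    have h3 : Fintype.card κ + 1 ≤ dim z := hz
    omega
  have hZ : ∀ z, z ∉ hr2.toFinset ↔ dim z ≤ r := by
    intro z
    rw [Set.Finite.mem_toFinset]
    show ¬ (r + 1 ≤ dim z) ↔ _
    omega
  -- the spans of independent vectors
  have hsp : ∀ z, dim z ≤ r → ∀ (H : Matrix (Fin r) κ ℚ), (∀ i, H i ∈ B z) →
      LinearIndependent ℚ (fun i => H i) →
      Submodule.span ℚ (Set.range fun i => H i) = Submodule.span ℚ (B z) := by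
    intro z hz H hH hi
    refine Submodule.eq_of_le_of_finrank_le (Submodule.span_mono ?_) ?_
    · rintro _ ⟨i, rfl⟩
      exact hH i
    · rw [finrank_span_eq_card hi, Fintype.card_fin]
      exact hz
  have hfin := core' M I (PB_DQ I hB hr2.toFinset r) (by
    rintro z u ⟨h1, H, Y, h2, h3⟩ u' ⟨-, H', Y', h2', h3'⟩
    have h4 := h3.unique h3' ((hsp z ((hZ z).1 h1) H h2 h3.indep).trans
      (hsp z ((hZ z).1 h1) H' h2' h3'.indep).symm)
    funext t
    exact congrFun (congrFun h4 t.1) t.2)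
  -- the integers of the generic dimension
  have hinf : ({z | r ≤ dim z} \ {z | r + 1 ≤ dim z}).Infinite := hr1.sdiff hr2
  have hex : ∀ z : ({z | r ≤ dim z} \ {z | r + 1 ≤ dim z} : Set ℤ),
      ∃ u : (⋃ z, PB B hr2.toFinset r z : Set (κ × κ → ℚ)),
        Submodule.span ℚ (B z) = fixd (Matrix.of fun a b => u.1 (a, b)) := by
    rintro ⟨z, h1, h2⟩
    have hd : dim z = r := by
      have h3 : r ≤ dim z := h1
      have h4 : ¬ (r + 1 ≤ dim z) := h2
      omega
    have h5 := Submodule.exists_fun_fin_finrank_span_eq ℚ (B z)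
    rw [show Module.finrank ℚ (Submodule.span ℚ (B z)) = r from hd] at h5
    obtain ⟨H, hH1, hH2, hH3⟩ := h5
    obtain ⟨Y, P, hP⟩ := exists_Proj (H := Matrix.of H) hH3
    refine ⟨⟨fun t => P t.1 t.2, Set.mem_iUnion.2 ⟨z, (hZ z).2 hd.le, Matrix.of H, Y, hH1, hP⟩⟩, ?_⟩
    have h6 := hP.fixd_eq
    have h7 : (Matrix.of fun a b => P a b) = P := rfl
    show _ = fixd (Matrix.of fun a b => P a b)
    rw [h7, h6]
    exact hH2.symm
  choose f hf using hex
  have : Infinite ({z | r ≤ dim z} \ {z | r + 1 ≤ dim z} : Set ℤ) := hinf.to_subtype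
  have : Finite (⋃ z, PB B hr2.toFinset r z : Set (κ × κ → ℚ)) := hfin.to_subtype
  obtain ⟨u, hu⟩ := Finite.exists_infinite_fiber f
  have hu' : ∀ z ∈ f ⁻¹' {u}, Submodule.span ℚ (B z) =
      fixd (Matrix.of fun a b => u.1 (a, b)) := by
    intro z hz
    have h1 : f z = u := hz
    rw [hf z, h1]
  refine ⟨fixd (Matrix.of fun a b => u.1 (a, b)), ?_, ?_⟩
  · have h1 : (Subtype.val '' (f ⁻¹' {u})).Infinite :=
      (Set.infinite_coe_iff.1 hu).image Subtype.val_injective.injOn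
    refine h1.mono ?_
    rintro _ ⟨z, hz, rfl⟩
    exact hu' z hz
  · obtain ⟨z, hz⟩ := (Set.infinite_coe_iff.1 hu).nonempty
    have h1 := hu' z hz
    refine hr2.subset fun z' hz' => ?_
    show r + 1 ≤ dim z'
    have h2 : r ≤ dim z.1 := z.2.1
    have h3 : Module.finrank ℚ (fixd (Matrix.of fun a b => u.1 (a, b))) < dim z' := hz'
    rw [← h1] at h3
    have h4 : dim z.1 < dim z' := h3
    omega

end Pool.Agent.TH729.MI
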