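import Pool.Agent.TH729.MI.H

/-!
# Polynomials vanishing on classes
-/

set_option autoImplicit false
set_option linter.unusedSectionVars false

namespace Pool.Agent.TH729.MI

open MvPolynomial

variable {n : ℕ} {D : Set (Fin n → ℚ)} {φ : (Fin n → ℚ) → ℤ}

/-- exponents -/
noncomputable def ex {n d : ℕ} (m : Fin n → Fin (d + 1)) : Fin n →₀ ℕ :=
  Finsupp.equivFunOnFinite.symm fun i => (m i : ℕ)

lemma ex_inj {n d : ℕ} : Function.Injective (ex : (Fin n → Fin (d + 1)) → Fin n →₀ ℕ) := by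
  intro m m' h
  funext i
  have := DFunLike.congr_fun h i
  exact Fin.ext this

lemma eval_box {n d : ℕ} (f : MvPolynomial (Fin n) ℚ) (hf : ∀ i, f.degreeOf i ≤ d)
    (x : Fin n → ℚ) : ∑ m : Fin n → Fin (d + 1), f.coeff (ex m) * ∏ i, x i ^ (m i : ℕ) =
      eval x f := by
  classical
  rw [eval_eq']
  have h1 : ∑ m : Fin n → Fin (d + 1), f.coeff (ex m) * ∏ i, x i ^ (m i : ℕ) =
      ∑ e ∈ Finset.univ.image (ex : (Fin n → Fin (d + 1)) → Fin n →₀ ℕ),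
        f.coeff e * ∏ i, x i ^ e i := by
    rw [Finset.sum_image fun a _ b _ h => ex_inj h]
    rfl
  rw [h1]
  symm
  refine Finset.sum_subset ?_ ?_
  · intro e he
    rw [Finset.mem_image]
    have h2 : ∀ i, e i < d + 1 := fun i =>
      Nat.lt_succ_of_le ((monomial_le_degreeOf i he).trans (hf i))
    refine ⟨fun i => ⟨e i, h2 i⟩, Finset.mem_univ _, ?_⟩
    ext i
    rfl
  · intro e _ he
    rw [notMem_support_iff.1 he, zero_mul]

theorem poly_classes (M : Mazur) (I : Interp n D φ) (d : ℕ) :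
    ∃ Z : Set ℤ, Z.Infinite ∧ ∀ z ∈ Z, ∀ z' ∈ Z, ∀ f : MvPolynomial (Fin n) ℚ,
      (∀ i, f.degreeOf i ≤ d) → (∀ x ∈ D, φ x = z → eval x f = 0) →
      ∀ x ∈ D, φ x = z' → eval x f = 0 := by
  set B : ℤ → Set ((Fin n → Fin (d + 1)) → ℚ) := fun z =>
    {u | ∃ y ∈ D, φ y = z ∧ ∀ m, u m = ∏ i, y i ^ (m i : ℕ)} with hB
  have hBD : DQ {x : Fin n ⊕ (Fin n → Fin (d + 1)) → ℚ | (fun j => x (Sum.inl j)) ∈ D ∧
      (fun i => x (Sum.inr i)) ∈ B (φ fun j => x (Sum.inl j))} := by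
    refine DQ.congr (DQ.exv (n := n) (ι := Fin 1)
      (R := fun (x : Fin n ⊕ (Fin n → Fin (d + 1)) → ℚ) y =>
      ((fun j => x (Sum.inl j)) ∈ D ∧ y 0 ∈ D ∧ φ (fun j => x (Sum.inl j)) = φ (y 0)) ∧
      ∀ m, x (Sum.inr m) = ∏ i, y 0 i ^ (m i : ℕ)) ?_) fun x => ?_
    · have h1 := I.eqq (τ := (Fin n ⊕ (Fin n → Fin (d + 1))) ⊕ (Fin 1 × Fin n))
        (fun j => X (Sum.inl (Sum.inl j))) (nw 0)
      have h2 := fun m : Fin n → Fin (d + 1) => DQ.eq
        (τ := (Fin n ⊕ (Fin n → Fin (d + 1))) ⊕ (Fin 1 × Fin n))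
        (X (Sum.inl (Sum.inr m))) (∏ i, X (Sum.inr (0, i)) ^ (m i : ℕ))
      refine (h1.and (DQ.forall' h2)).congr fun z => ?_
      have e1 : vv (fun j => X (Sum.inl (Sum.inl j))) z = fun j : Fin n =>
          z (Sum.inl (Sum.inl j)) := by
        funext j
        simp [vv]
      simp only [Set.mem_ofPred_eq, e1, vv_nw, map_prod, map_pow, eval_X]
    · simp only [Set.mem_ofPred_eq, hB]
      constructor
      · rintro ⟨h1, y, h2, h3, h4⟩
        exact ⟨fun _ => y, ⟨h1, h2, h3.symm⟩, h4⟩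
      · rintro ⟨y, ⟨h1, h2, h3⟩, h4⟩
        exact ⟨h1, y 0, h2, h3.symm, h4⟩
  obtain ⟨Λ, hΛ, -⟩ := spans M I hBD
  refine ⟨_, hΛ, fun z hz z' hz' f hf hfz x hx hxz => ?_⟩
  -- the linear form
  set L : ((Fin n → Fin (d + 1)) → ℚ) →ₗ[ℚ] ℚ :=
    ∑ m, f.coeff (ex m) • LinearMap.proj m with hL
  have hLe : ∀ (y : Fin n → ℚ) (u : (Fin n → Fin (d + 1)) → ℚ),
      (∀ m, u m = ∏ i, y i ^ (m i : ℕ)) → L u = eval y f := by
    intro y u hu
    rw [← eval_box f hf y]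
    simp only [hL, LinearMap.sum_apply, LinearMap.smul_apply, LinearMap.proj_apply, smul_eq_mul,
      hu]
  have h1 : Submodule.span ℚ (B z) ≤ LinearMap.ker L := by
    rw [Submodule.span_le]
    rintro u ⟨y, hy, hyz, hu⟩
    show L u = 0
    rw [hLe y u hu]
    exact hfz y hy hyz
  have h2 : Submodule.span ℚ (B z) = Submodule.span ℚ (B z') := by
    rw [show Submodule.span ℚ (B z) = Λ from hz, show Submodule.span ℚ (B z') = Λ from hz']
  have h3 : (fun m : Fin n → Fin (d + 1) => ∏ i, x i ^ (m i : ℕ)) ∈ Submodule.span ℚ (B z') :=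
    Submodule.subset_span ⟨x, hx, hxz, fun _ => rfl⟩
  rw [← h2] at h3
  have h4 := h1 h3
  rw [← hLe x _ fun _ => rfl]
  exact h4

end Pool.Agent.TH729.MI
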