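import Pool.Agent.TH729.MI.K

/-!
# One ideal for all degrees
-/

set_option autoImplicit false
set_option linter.unusedSectionVars false

namespace Pool.Agent.TH729.MI

open MvPolynomial Dioph Pool.Agent.Helper702 Matrix

variable {n : ℕ} {D : Set (Fin n → ℚ)} {φ : (Fin n → ℚ) → ℤ}

/-- **spans, relative to a Diophantine set of integers** -/
theorem spansZ (M : Mazur) (I : Interp n D φ) {κ : Type} [Finite κ] {B : ℤ → Set (κ → ℚ)}
    (hB : DQ {x : Fin n ⊕ κ → ℚ | (fun j => x (Sum.inl j)) ∈ D ∧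
      (fun i => x (Sum.inr i)) ∈ B (φ fun j => x (Sum.inl j))}) {Z : Set ℤ}
    (hZ : DQ {x : Fin n → ℚ | x ∈ D ∧ φ x ∈ Z}) (hZi : Z.Infinite) :
    ∃ Z' : Set ℤ, Z' ⊆ Z ∧ Z'.Infinite ∧ DQ {x : Fin n → ℚ | x ∈ D ∧ φ x ∈ Z'} ∧
      ∃ Λ : Submodule ℚ (κ → ℚ), (∀ z ∈ Z', Submodule.span ℚ (B z) = Λ) ∧
      {z ∈ Z | Module.finrank ℚ Λ < Module.finrank ℚ (Submodule.span ℚ (B z))}.Finite := by
  classical
  have : Fintype κ := Fintype.ofFinite κ
  set BZ : ℤ → Set (κ → ℚ) := fun z => {u | z ∈ Z ∧ u ∈ B z} with hBZdef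
  have hBZe : ∀ z ∈ Z, BZ z = B z := by
    intro z hz
    ext u
    show (z ∈ Z ∧ u ∈ B z) ↔ _
    exact ⟨fun h => h.2, fun h => ⟨hz, h⟩⟩
  have hBZn : ∀ z, z ∉ Z → BZ z = ∅ := by
    intro z hz
    ext u
    show (z ∈ Z ∧ u ∈ B z) ↔ _
    exact ⟨fun h => (hz h.1).elim, fun h => h.elim⟩
  have hBZ : DQ {x : Fin n ⊕ κ → ℚ | (fun j => x (Sum.inl j)) ∈ D ∧
      (fun i => x (Sum.inr i)) ∈ BZ (φ fun j => x (Sum.inl j))} := by
    refine ((hZ.re (τ' := Fin n ⊕ κ) Sum.inl).and hB).congr fun x => ?_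
    simp only [Set.mem_ofPred_eq, hBZdef]
    tauto
  set dim : ℤ → ℕ := fun z => Module.finrank ℚ (Submodule.span ℚ (BZ z)) with hdim
  obtain ⟨r, hr1, hr2⟩ : ∃ r, {z ∈ Z | r ≤ dim z}.Infinite ∧ {z ∈ Z | r + 1 ≤ dim z}.Finite := by
    by_contra hcon
    push Not at hcon
    have h1 : ∀ r, {z ∈ Z | r ≤ dim z}.Infinite := by
      intro r
      induction r with
      | zero =>
        have : {z ∈ Z | 0 ≤ dim z} = Z := by
          ext z
          simp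
        rw [this]
        exact hZi
      | succ r ih => exact hcon r ih
    obtain ⟨z, hz⟩ := (h1 (Fintype.card κ + 1)).nonempty
    have h2 : dim z ≤ Fintype.card κ := by
      have := Submodule.finrank_le (Submodule.span ℚ (BZ z))
      rwa [Module.finrank_fintype_fun_eq_card] at this
    have h3 : Fintype.card κ + 1 ≤ dim z := hz.2
    omega
  have hZ0 : ∀ z, z ∉ hr2.toFinset → dim z ≤ r := by
    intro z hz
    rw [Set.Finite.mem_toFinset] at hz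
    by_cases h : z ∈ Z
    · by_contra h1
      exact hz ⟨h, by omega⟩
    · have h1 : dim z = 0 := by
        show Module.finrank ℚ (Submodule.span ℚ (BZ z)) = 0
        rw [hBZn z h, Submodule.span_empty]
        exact finrank_bot ℚ _
      omega
  -- the spans of independent vectors
  have hsp : ∀ z, dim z ≤ r → ∀ (H : Matrix (Fin r) κ ℚ), (∀ i, H i ∈ BZ z) →
      LinearIndependent ℚ (fun i => H i) →
      Submodule.span ℚ (Set.range fun i => H i) = Submodule.span ℚ (BZ z) := by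
    intro z hz H hH hi
    refine Submodule.eq_of_le_of_finrank_le (Submodule.span_mono ?_) ?_
    · rintro _ ⟨i, rfl⟩
      exact hH i
    · rw [finrank_span_eq_card hi, Fintype.card_fin]
      exact hz
  have hfin := core' M I (PB_DQ I hBZ hr2.toFinset r) (by
    rintro z u ⟨h1, H, Y, h2, h3⟩ u' ⟨-, H', Y', h2', h3'⟩
    have h4 := h3.unique h3' ((hsp z (hZ0 z h1) H h2 h3.indep).trans
      (hsp z (hZ0 z h1) H' h2' h3'.indep).symm)
    funext t
    exact congrFun (congrFun h4 t.1) t.2)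
  -- the integers of the generic dimension
  have hinf : ({z ∈ Z | r ≤ dim z} \ {z ∈ Z | r + 1 ≤ dim z}).Infinite := hr1.sdiff hr2
  have hex : ∀ z : ({z ∈ Z | r ≤ dim z} \ {z ∈ Z | r + 1 ≤ dim z} : Set ℤ),
      ∃ u : (⋃ z, PB BZ hr2.toFinset r z : Set (κ × κ → ℚ)),
        u.1 ∈ PB BZ hr2.toFinset r z := by
    rintro ⟨z, h1, h2⟩
    have hzf : z ∉ hr2.toFinset := by
      rw [Set.Finite.mem_toFinset]
      exact h2
    have hd : dim z = r := by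
      have h3 : r ≤ dim z := h1.2
      have h4 := hZ0 z hzf
      omega
    have h5 := Submodule.exists_fun_fin_finrank_span_eq ℚ (BZ z)
    rw [show Module.finrank ℚ (Submodule.span ℚ (BZ z)) = r from hd] at h5
    obtain ⟨H, hH1, hH2, hH3⟩ := h5
    obtain ⟨Y, P, hP⟩ := exists_Proj (H := Matrix.of H) hH3
    have h6 : (fun t : κ × κ => P t.1 t.2) ∈ PB BZ hr2.toFinset r z :=
      ⟨hzf, Matrix.of H, Y, hH1, hP⟩
    exact ⟨⟨_, Set.mem_iUnion.2 ⟨z, h6⟩⟩, h6⟩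
  choose f hf using hex
  have : Infinite ({z ∈ Z | r ≤ dim z} \ {z ∈ Z | r + 1 ≤ dim z} : Set ℤ) := hinf.to_subtype
  have : Finite (⋃ z, PB BZ hr2.toFinset r z : Set (κ × κ → ℚ)) := hfin.to_subtype
  obtain ⟨u, hu⟩ := Finite.exists_infinite_fiber f
  set Z' : Set ℤ := {z | z ∈ Z ∧ u.1 ∈ PB BZ hr2.toFinset r z} with hZ'
  have hspan : ∀ z ∈ Z', Submodule.span ℚ (B z) = fixd (Matrix.of fun a b => u.1 (a, b)) := by
    rintro z ⟨hz, h1, H, Y, h2, h3⟩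
    rw [h3.fixd_eq, hsp z (hZ0 z h1) H h2 h3.indep, hBZe z hz]
  have hZ'i : Z'.Infinite := by
    have h1 : (Subtype.val '' (f ⁻¹' {u})).Infinite :=
      (Set.infinite_coe_iff.1 hu).image Subtype.val_injective.injOn
    refine h1.mono ?_
    rintro _ ⟨z, hz, rfl⟩
    refine ⟨z.2.1.1, ?_⟩
    have h2 : f z = u := hz
    rw [← h2]
    exact hf z
  refine ⟨Z', fun z hz => hz.1, hZ'i, ?_, _, hspan, ?_⟩
  · refine (hZ.and ((PB_DQ I hBZ hr2.toFinset r).pre (Sum.elim (fun j => X j)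
      (fun t => C (u.1 t))))).congr fun x => ?_
    simp only [Set.mem_ofPred_eq, hZ', Sum.elim_inl, Sum.elim_inr, eval_X, eval_C]
    tauto
  · obtain ⟨z, hz⟩ := (Set.infinite_coe_iff.1 hu).nonempty
    have h1 : z.1 ∈ Z' := ⟨z.2.1.1, by
      have h2 : f z = u := hz
      rw [← h2]
      exact hf z⟩
    have h3 := hspan _ h1
    refine hr2.subset fun z' hz' => ⟨hz'.1, ?_⟩
    have h4 : r ≤ dim z.1 := z.2.1.2
    have h5 : dim z.1 = Module.finrank ℚ (fixd (Matrix.of fun a b => u.1 (a, b))) := by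
      show Module.finrank ℚ (Submodule.span ℚ (BZ z.1)) = _
      rw [hBZe _ h1.1, h3]
    have h6 : dim z' = Module.finrank ℚ (Submodule.span ℚ (B z')) := by
      show Module.finrank ℚ (Submodule.span ℚ (BZ z')) = _
      rw [hBZe _ hz'.1]
    have h7 := hz'.2
    omega

/-- the monomial vectors of a class -/
def MB (D : Set (Fin n → ℚ)) (φ : (Fin n → ℚ) → ℤ) (d : ℕ) (z : ℤ) :
    Set ((Fin n → Fin (d + 1)) → ℚ) :=
  {u | ∃ y ∈ D, φ y = z ∧ ∀ m, u m = ∏ i, y i ^ (m i : ℕ)}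

lemma MB_DQ (I : Interp n D φ) (d : ℕ) :
    DQ {x : Fin n ⊕ (Fin n → Fin (d + 1)) → ℚ | (fun j => x (Sum.inl j)) ∈ D ∧
      (fun i => x (Sum.inr i)) ∈ MB D φ d (φ fun j => x (Sum.inl j))} := by
  refine DQ.congr (DQ.exv (n := n) (ι := Fin 1)
    (R := fun (x : Fin n ⊕ (Fin n → Fin (d + 1)) → ℚ) y =>
    ((fun j => x (Sum.inl j)) ∈ D ∧ y 0 ∈ D ∧ φ (fun j => x (Sum.inl j)) = φ (y 0)) ∧
    ∀ m, x (Sum.inr m) = ∏ i, y 0 i ^ (m i : ℕ)) ?_) fun x => ?_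
  · have h1 := I.eqq (τ := (Fin n ⊕ (Fin n → Fin (d + 1))) ⊕ (Fin 1 × Fin n))
      (fun j => X (Sum.inl (Sum.inl j))) (nw 0)
    have h2 := fun m : Fin n → Fin (d + 1) => DQ.eq
      (τ := (Fin n ⊕ (Fin n → Fin (d + 1))) ⊕ (Fin 1 × Fin n))
      (X (Sum.inl (Sum.inr m))) (∏ i, X (Sum.inr (0, i)) ^ (m i : ℕ))
    refine (h1.and (DQ.forall' h2)).congr fun z => ?_
    have e1 : vv (fun j => X (Sum.inl (Sum.inl j))) z = fun j : Fin n =>
        z (Sum.inl (Sum.inl j)) := by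
      funext j
      simp [vv]
    simp only [Set.mem_ofPred_eq, e1, vv_nw, map_prod, map_pow, eval_X]
  · simp only [Set.mem_ofPred_eq, MB]
    constructor
    · rintro ⟨h1, y, h2, h3, h4⟩
      exact ⟨fun _ => y, ⟨h1, h2, h3.symm⟩, h4⟩
    · rintro ⟨y, ⟨h1, h2, h3⟩, h4⟩
      exact ⟨h1, y 0, h2, h3.symm, h4⟩

/-- `f` vanishes on the class of `z` -/
def Van (D : Set (Fin n → ℚ)) (φ : (Fin n → ℚ) → ℤ) (f : MvPolynomial (Fin n) ℚ) (z : ℤ) : Prop :=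
  ∀ x ∈ D, φ x = z → eval x f = 0

lemma van_of_span {d : ℕ} {f : MvPolynomial (Fin n) ℚ} (hf : ∀ i, f.degreeOf i ≤ d) {z z' : ℤ}
    (h : Submodule.span ℚ (MB D φ d z) = Submodule.span ℚ (MB D φ d z')) (hz : Van D φ f z) :
    Van D φ f z' := by
  intro x hx hxz
  set L : ((Fin n → Fin (d + 1)) → ℚ) →ₗ[ℚ] ℚ :=
    ∑ m, f.coeff (ex m) • LinearMap.proj m with hL
  have hLe : ∀ (y : Fin n → ℚ) (u : (Fin n → Fin (d + 1)) → ℚ),
      (∀ m, u m = ∏ i, y i ^ (m i : ℕ)) → L u = eval y f := by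
    intro y u hu
    rw [← eval_box f hf y]
    simp only [hL, LinearMap.sum_apply, LinearMap.smul_apply, LinearMap.proj_apply, smul_eq_mul,
      hu]
  have h1 : Submodule.span ℚ (MB D φ d z) ≤ LinearMap.ker L := by
    rw [Submodule.span_le]
    rintro u ⟨y, hy, hyz, hu⟩
    show L u = 0
    rw [hLe y u hu]
    exact hz y hy hyz
  have h3 : (fun m : Fin n → Fin (d + 1) => ∏ i, x i ^ (m i : ℕ)) ∈
      Submodule.span ℚ (MB D φ d z') :=
    Submodule.subset_span ⟨x, hx, hxz, fun _ => rfl⟩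
  rw [← h] at h3
  have h4 := h1 h3
  rw [← hLe x _ fun _ => rfl]
  exact h4

/-- **one ideal** -/
theorem one_ideal (M : Mazur) (I : Interp n D φ) :
    ∃ J : Ideal (MvPolynomial (Fin n) ℚ), ∀ d : ℕ, {z : ℤ | ∀ f : MvPolynomial (Fin n) ℚ,
      (∀ i, f.degreeOf i ≤ d) → (Van D φ f z ↔ f ∈ J)}.Infinite := by
  classical
  have hstep : ∀ (d : ℕ) (Z : {Z : Set ℤ // Z.Infinite ∧ DQ {x : Fin n → ℚ | x ∈ D ∧ φ x ∈ Z}}),
      ∃ Z' : {Z : Set ℤ // Z.Infinite ∧ DQ {x : Fin n → ℚ | x ∈ D ∧ φ x ∈ Z}},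
        Z'.1 ⊆ Z.1 ∧ ∀ z ∈ Z'.1, ∀ z' ∈ Z'.1,
          Submodule.span ℚ (MB D φ d z) = Submodule.span ℚ (MB D φ d z') := by
    rintro d ⟨Z, hZi, hZ⟩
    obtain ⟨Z', h1, h2, h3, Λ, h4, -⟩ := spansZ M I (MB_DQ I d) hZ hZi
    exact ⟨⟨Z', h2, h3⟩, h1, fun z hz z' hz' => (h4 z hz).trans (h4 z' hz').symm⟩
  choose nx hnx1 hnx2 using hstep
  have hZ0 : DQ {x : Fin n → ℚ | x ∈ D ∧ φ x ∈ (Set.univ : Set ℤ)} :=
    I.dD.congr fun x => by simp
  set sq : ℕ → {Z : Set ℤ // Z.Infinite ∧ DQ {x : Fin n → ℚ | x ∈ D ∧ φ x ∈ Z}} := fun d =>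
    Nat.rec (nx 0 ⟨Set.univ, Set.infinite_univ, hZ0⟩) (fun d Z => nx (d + 1) Z) d with hsq
  have hsq1 : ∀ d, ∀ z ∈ (sq d).1, ∀ z' ∈ (sq d).1,
      Submodule.span ℚ (MB D φ d z) = Submodule.span ℚ (MB D φ d z') := by
    intro d
    cases d with
    | zero => exact hnx2 0 _
    | succ d => exact hnx2 (d + 1) _
  have hanti : Antitone fun d => (sq d).1 :=
    antitone_nat_of_succ_le fun d => hnx1 (d + 1) (sq d)
  let J : Ideal (MvPolynomial (Fin n) ℚ) :=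
    { carrier := {f | ∃ d, ∀ z ∈ (sq d).1, Van D φ f z}
      add_mem' := by
        rintro f g ⟨d, hd⟩ ⟨d', hd'⟩
        refine ⟨max d d', fun z hz x hx hxz => ?_⟩
        rw [map_add, hd z (hanti (le_max_left d d') hz) x hx hxz,
          hd' z (hanti (le_max_right d d') hz) x hx hxz, add_zero]
      zero_mem' := ⟨0, fun z _ x _ _ => map_zero _⟩
      smul_mem' := by
        rintro c f ⟨d, hd⟩
        refine ⟨d, fun z hz x hx hxz => ?_⟩
        rw [smul_eq_mul, map_mul, hd z hz x hx hxz, mul_zero] }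
  refine ⟨J, fun d => (sq d).2.1.mono fun z hz f hf => ⟨fun h => ?_, fun h => ?_⟩⟩
  · exact ⟨d, fun z' hz' => van_of_span hf (hsq1 d z hz z' hz') h⟩
  · obtain ⟨d', hd'⟩ := h
    obtain ⟨z', hz'⟩ := (sq (max d d')).2.1.nonempty
    exact van_of_span hf (hsq1 d z' (hanti (le_max_left d d') hz') z hz)
      (hd' z' (hanti (le_max_right d d') hz'))

end Pool.Agent.TH729.MI
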