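import Pool.Agent.TH729.MI.N

/-!
# Recursively enumerable sets of integers
-/

set_option autoImplicit false
set_option linter.unusedSectionVars false

namespace Pool.Agent.TH729.MI

open MvPolynomial Dioph Pool.Agent.Helper702 Matrix

variable {n : ℕ} {D : Set (Fin n → ℚ)} {φ : (Fin n → ℚ) → ℤ}

/-- Diophantine (= recursively enumerable) sets of integers -/
def DZ (W : Set ℤ) : Prop :=
  ∃ (m : ℕ) (P : MvPolynomial (Unit ⊕ Fin m) ℤ), ∀ z : ℤ,
    z ∈ W ↔ ∃ w : Fin m → ℤ, eval (Sum.elim (fun _ => z) w) P = 0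

theorem Interp.re (I : Interp n D φ) {W : Set ℤ} (hW : DZ W) :
    DQ {x : Fin n → ℚ | x ∈ D ∧ φ x ∈ W} := by
  obtain ⟨m, P, hP⟩ := hW
  obtain ⟨r, hr, hr0⟩ := I.surj (Set.mem_univ (0 : ℤ))
  refine DQ.congr (DQ.exv (n := n) (ι := Fin m) (R := fun (x : Fin n → ℚ) y =>
    (∀ i : Unit ⊕ Fin m, Sum.elim (fun _ => x) y i ∈ D) ∧ r ∈ D ∧
      φ r = eval (fun i => φ (Sum.elim (fun _ : Unit => x) y i)) P) ?_) fun x => ?_
  · refine (I.poly P (τ := Fin n ⊕ (Fin m × Fin n))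
      (Sum.elim (fun _ => fun j => X (Sum.inl j)) (fun i => nw i))
      (fun j => C (r j))).congr fun z => ?_
    have e1 : vv (fun j => (C (r j) : MvPolynomial (Fin n ⊕ (Fin m × Fin n)) ℚ)) z = r := by
      funext j
      simp [vv]
    have e2 : ∀ i : Unit ⊕ Fin m, vv (Sum.elim (fun _ => fun j => X (Sum.inl j))
        (fun i => nw i) i : Fin n → MvPolynomial (Fin n ⊕ (Fin m × Fin n)) ℚ) z =
        Sum.elim (fun _ => fun j => z (Sum.inl j)) (fun i j => z (Sum.inr (i, j))) i := by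
      rintro (i | i)
      · funext j
        simp [vv]
      · rw [Sum.elim_inr, Sum.elim_inr, vv_nw]
    simp only [Set.mem_ofPred_eq, e1, e2]
  · simp only [Set.mem_ofPred_eq]
    have e3 : ∀ y : Fin m → Fin n → ℚ,
        (fun i => φ (Sum.elim (fun _ : Unit => x) y i)) = Sum.elim (fun _ => φ x)
          (fun i => φ (y i)) := by
      intro y
      funext i
      rcases i with i | i <;> rfl
    constructor
    · rintro ⟨h1, h2⟩
      obtain ⟨w, hw⟩ := (hP _).1 h2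
      choose y hy hy' using fun i => I.surj (Set.mem_univ (w i))
      refine ⟨y, ?_, hr, ?_⟩
      · rintro (i | i)
        · exact h1
        · exact hy i
      · rw [e3, hr0]
        have : (fun i => φ (y i)) = w := funext hy'
        rw [this, hw]
    · rintro ⟨y, h1, -, h2⟩
      refine ⟨h1 (Sum.inl ()), (hP _).2 ⟨fun i => φ (y i), ?_⟩⟩
      rw [e3, hr0] at h2
      exact h2.symm

/-- **one ideal**, for the integers in a recursively enumerable set -/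
theorem one_idealZ (M : Mazur) (I : Interp n D φ) {W : Set ℤ} (hW : DZ W) (hWi : W.Infinite) :
    ∃ J : Ideal (MvPolynomial (Fin n) ℚ), ∀ d : ℕ, {z ∈ W | ∀ f : MvPolynomial (Fin n) ℚ,
      (∀ i, f.degreeOf i ≤ d) → (Van D φ f z ↔ f ∈ J)}.Infinite := by
  classical
  have hstep : ∀ (d : ℕ) (Z : {Z : Set ℤ // Z.Infinite ∧ DQ {x : Fin n → ℚ | x ∈ D ∧ φ x ∈ Z}}),
      ∃ Z' : {Z : Set ℤ // Z.Infinite ∧ DQ {x : Fin n → ℚ | x ∈ D ∧ φ x ∈ Z}},
        Z'.1 ⊆ Z.1 ∧ ∀ z ∈ Z'.1, ∀ z' ∈ Z'.1,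
          Submodule.span ℚ (MB D φ d z) = Submodule.span ℚ (MB D φ d z') := by
    rintro d ⟨Z, hZi, hZ⟩
    obtain ⟨Z', h1, h2, h3, Λ, h4, -⟩ := spansZ M I (MB_DQ I d) hZ hZi
    exact ⟨⟨Z', h2, h3⟩, h1, fun z hz z' hz' => (h4 z hz).trans (h4 z' hz').symm⟩
  choose nx hnx1 hnx2 using hstep
  set sq : ℕ → {Z : Set ℤ // Z.Infinite ∧ DQ {x : Fin n → ℚ | x ∈ D ∧ φ x ∈ Z}} := fun d =>
    Nat.rec (nx 0 ⟨W, hWi, I.re hW⟩) (fun d Z => nx (d + 1) Z) d with hsq
  have hsq1 : ∀ d, ∀ z ∈ (sq d).1, ∀ z' ∈ (sq d).1,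
      Submodule.span ℚ (MB D φ d z) = Submodule.span ℚ (MB D φ d z') := by
    intro d
    cases d with
    | zero => exact hnx2 0 _
    | succ d => exact hnx2 (d + 1) _
  have hanti : Antitone fun d => (sq d).1 :=
    antitone_nat_of_succ_le fun d => hnx1 (d + 1) (sq d)
  have hsqW : ∀ d, (sq d).1 ⊆ W := fun d =>
    (hanti (Nat.zero_le d)).trans (hnx1 0 ⟨W, hWi, I.re hW⟩)
  let J : Ideal (MvPolynomial (Fin n) ℚ) :=
    { carrier := {f | ∃ d, ∀ z ∈ (sq d).1, Van D φ f z}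
      add_mem' := by
        rintro f g ⟨d, hd⟩ ⟨d', hd'⟩
        refine ⟨max d d', fun z hz x hx hxz => ?_⟩
        rw [map_add, hd z (hanti (le_max_left d d') hz) x hx hxz,
          hd' z (hanti (le_max_right d d') hz) x hx hxz, add_zero]
      zero_mem' := ⟨0, fun z _ x _ _ => map_zero _⟩
      smul_mem' := by
        rintro c f ⟨d, hd⟩
        refine ⟨d, fun z hz x hx hxz => ?_⟩
        rw [smul_eq_mul, map_mul, hd z hz x hx hxz, mul_zero] }
  refine ⟨J, fun d => (sq d).2.1.mono fun z hz =>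
    ⟨hsqW d hz, fun f hf => ⟨fun h => ?_, fun h => ?_⟩⟩⟩
  · exact ⟨d, fun z' hz' => van_of_span hf (hsq1 d z hz z' hz') h⟩
  · obtain ⟨d', hd'⟩ := h
    obtain ⟨z', hz'⟩ := (sq (max d d')).2.1.nonempty
    exact van_of_span hf (hsq1 d z' (hanti (le_max_left d d') hz') z hz)
      (hd' z' (hanti (le_max_right d d') hz'))

end Pool.Agent.TH729.MI
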